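import Mathlib

open Real Finset

set_option autoImplicit false

namespace Pool.Agent.LiebT

/-- The profile `(π/4) cot (π t / 2)`. -/
noncomputable def b0 (t : ℝ) : ℝ := π / 4 * (cos (π * t / 2) / sin (π * t / 2))

theorem mul_cos_le_sin_of_abs {z : ℝ} (hz : |z| < π / 2) : z * cos z * z ≤ sin z * z := by
  rcases lt_trichotomy z 0 with h | h | h
  · have h1 : 0 < -z := by linarith
    have h2 : -z < π / 2 := by rw [abs_of_neg h] at hz; exact hz
    have h3 := Real.lt_tan h1 h2
    have hc : 0 < cos (-z) := Real.cos_pos_of_mem_Ioo ⟨by linarith, h2⟩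
    rw [Real.tan_eq_sin_div_cos, lt_div_iff₀ hc] at h3
    rw [Real.cos_neg, Real.sin_neg] at h3
    nlinarith
  · simp [h]
  · have h2 : z < π / 2 := by rw [abs_of_pos h] at hz; exact hz
    have h3 := Real.lt_tan h h2
    have hc : 0 < cos z := Real.cos_pos_of_mem_Ioo ⟨by linarith, h2⟩
    rw [Real.tan_eq_sin_div_cos, lt_div_iff₀ hc] at h3
    nlinarith

/-- The exact kernel inequality behind the one-dimensional Lieb-Thirring inequality. -/
theorem b0_kernel {s t r : ℝ} (hs : 0 < s) (hs1 : s < 1) (ht : 0 < t) (ht1 : t < 1)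
    (hr : 0 < r) (hr1 : r < 1) (hst : s ≠ t) :
    4 * (b0 (s + r) * b0 (t + r)) + 2 * ((b0 (s + r) - b0 (t + r)) / (s - t)) + π ^ 2 / 4 ≤ 0 := by
  have hpi := Real.pi_pos
  have hx : 0 < sin (π * (s + r) / 2) := by
    apply Real.sin_pos_of_pos_of_lt_pi
    · positivity
    · nlinarith
  have hy : 0 < sin (π * (t + r) / 2) := by
    apply Real.sin_pos_of_pos_of_lt_pi
    · positivity
    · nlinarith
  have hne : s - t ≠ 0 := sub_ne_zero.mpr hst
  set z : ℝ := π * (s + r) / 2 - π * (t + r) / 2 with hz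
  have hzst : z = π / 2 * (s - t) := by rw [hz]; ring
  have hzabs : |z| < π / 2 := by
    rw [hzst, abs_mul, abs_of_pos (by positivity : (0 : ℝ) < π / 2)]
    have : |s - t| < 1 := by rw [abs_lt]; constructor <;> linarith
    nlinarith [abs_nonneg (s - t)]
  have hkey := mul_cos_le_sin_of_abs hzabs
  have hz0 : z ≠ 0 := by rw [hzst]; exact mul_ne_zero (by positivity) hne
  have hcos : cos z = cos (π * (s + r) / 2) * cos (π * (t + r) / 2)
      + sin (π * (s + r) / 2) * sin (π * (t + r) / 2) := by rw [hz, Real.cos_sub]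
  have hsin : sin z = sin (π * (s + r) / 2) * cos (π * (t + r) / 2)
      - cos (π * (s + r) / 2) * sin (π * (t + r) / 2) := by rw [hz, Real.sin_sub]
  have hst' : s - t = 2 / π * z := by rw [hzst]; field_simp
  have hk2 : cos z - sin z / z ≤ 0 := by
    have h1 : (cos z - sin z / z) * (z * z) ≤ 0 := by
      have : (cos z - sin z / z) * (z * z) = z * cos z * z - sin z * z := by field_simp
      rw [this]; linarith
    by_contra hcon
    push Not at hcon
    have : 0 < (cos z - sin z / z) * (z * z) := mul_pos hcon (mul_self_pos.mpr hz0)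
    linarith
  have : 4 * (b0 (s + r) * b0 (t + r)) + 2 * ((b0 (s + r) - b0 (t + r)) / (s - t)) + π ^ 2 / 4
      = π ^ 2 / 4 * ((cos z - sin z / z) /
        (sin (π * (s + r) / 2) * sin (π * (t + r) / 2))) := by
    rw [hst', hcos, hsin]
    unfold b0
    field_simp
    ring
  rw [this]
  have h3 : (cos z - sin z / z) / (sin (π * (s + r) / 2) * sin (π * (t + r) / 2)) ≤ 0 :=
    div_nonpos_of_nonpos_of_nonneg hk2 (by positivity)
  nlinarith [sq_nonneg π, h3]

theorem sin_half_pos {x : ℝ} (h0 : 0 < x) (h2 : x < 2) : 0 < sin (π * x / 2) := by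
  have hpi := Real.pi_pos
  apply Real.sin_pos_of_pos_of_lt_pi
  · positivity
  · nlinarith

theorem hasDerivAt_b0 {x : ℝ} (h0 : 0 < x) (h2 : x < 2) :
    HasDerivAt b0 (-(π ^ 2 / 8) / sin (π * x / 2) ^ 2) x := by
  have hs := sin_half_pos h0 h2
  have h1 : HasDerivAt (fun y : ℝ => π * y / 2) (π / 2) x := by
    have := ((hasDerivAt_id x).const_mul π).div_const 2
    simpa using this
  have hc := h1.cos
  have hsn := h1.sin
  have h := (hc.div hsn hs.ne').const_mul (π / 4)
  have hsc := Real.sin_sq_add_cos_sq (π * x / 2)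
  have e : -(π ^ 2 / 8) / sin (π * x / 2) ^ 2 = π / 4 *
      ((-sin (π * x / 2) * (π / 2) * sin (π * x / 2) - cos (π * x / 2) * (cos (π * x / 2) * (π / 2)))
        / sin (π * x / 2) ^ 2) := by
    have hss : sin (π * x / 2) ^ 2 ≠ 0 := by positivity
    rw [← mul_div_assoc, div_left_inj' hss]
    have : sin (π * x / 2) ^ 2 = 1 - cos (π * x / 2) ^ 2 := by linarith
    ring_nf
    ring_nf at this
    rw [this]
    ring
  rw [e]
  exact h

end Pool.Agent.LiebT
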