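import Mathlib
import Pool.Agent.LiebT.Kernel

open Real Finset

set_option autoImplicit false

namespace Pool.Agent.LiebT

open Polynomial in
theorem exists_derivative_eq (q : Polynomial ℝ) : ∃ p : Polynomial ℝ, derivative p = q := by
  refine ⟨q.sum (fun n a => monomial (n + 1) (a / (n + 1))), ?_⟩
  rw [Polynomial.sum_def, map_sum]
  conv_rhs => rw [← Polynomial.sum_monomial_eq q, Polynomial.sum_def]
  apply Finset.sum_congr rfl
  intro n _
  rw [derivative_monomial]
  have : ((n : ℝ) + 1) ≠ 0 := by positivity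
  simp only [Nat.add_sub_cancel]
  congr 1
  push_cast
  field_simp

/-- `C^1` approximation of `b0` by polynomials. -/
theorem exists_poly_near_b0 {a b δ : ℝ} (ha : 0 < a) (hab : a ≤ 1) (hb1 : 1 ≤ b) (hb : b < 2)
    (hδ : 0 < δ) :
    ∃ p : Polynomial ℝ, (∀ x ∈ Set.Icc a b, |p.eval x - b0 x| ≤ δ) ∧
      (∀ x ∈ Set.Icc a b, ∀ y ∈ Set.Icc a b,
        |(p.eval x - b0 x) - (p.eval y - b0 y)| ≤ δ * |x - y|) := by
  have hcont : ContinuousOn (fun x : ℝ => -(π ^ 2 / 8) / sin (π * x / 2) ^ 2) (Set.Icc a b) := by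
    apply ContinuousOn.div
    · fun_prop
    · fun_prop
    · intro x hx
      have := sin_half_pos (lt_of_lt_of_le ha hx.1) (lt_of_le_of_lt hx.2 hb)
      positivity
  obtain ⟨q, hq⟩ := exists_polynomial_near_of_continuousOn a b _ hcont δ hδ
  obtain ⟨p0, hp0⟩ := exists_derivative_eq q
  set p : Polynomial ℝ := p0 + Polynomial.C (b0 1 - p0.eval 1) with hp
  have hpd : Polynomial.derivative p = q := by rw [hp]; simp [hp0]
  have hp1 : p.eval 1 = b0 1 := by rw [hp]; simp
  have hlip : ∀ x ∈ Set.Icc a b, ∀ y ∈ Set.Icc a b,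
        |(p.eval x - b0 x) - (p.eval y - b0 y)| ≤ δ * |x - y| := by
    intro x hx y hy
    have hder : ∀ z ∈ Set.Icc a b, HasDerivWithinAt (fun z => p.eval z - b0 z)
        (q.eval z - (-(π ^ 2 / 8) / sin (π * z / 2) ^ 2)) (Set.Icc a b) z := by
      intro z hz
      have h1 : HasDerivAt (fun z => p.eval z) (q.eval z) z := by
        rw [← hpd]; exact p.hasDerivAt z
      exact (h1.sub (hasDerivAt_b0 (lt_of_lt_of_le ha hz.1)
        (lt_of_le_of_lt hz.2 hb))).hasDerivWithinAt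
    have := Convex.norm_image_sub_le_of_norm_hasDerivWithin_le (C := δ) hder
      (fun z hz => (hq z hz).le) (convex_Icc a b) hy hx
    simpa [Real.norm_eq_abs] using this
  refine ⟨p, ?_, hlip⟩
  intro x hx
  have h := hlip x hx 1 ⟨hab, hb1⟩
  rw [hp1, sub_self, sub_zero] at h
  have hx1 : |x - 1| ≤ 1 := by
    rw [abs_le]; constructor
    · linarith [hx.1]
    · linarith [hx.2]
  nlinarith [abs_nonneg (x - 1)]

theorem exists_poly_kernel {ε η : ℝ} (hε : 0 < ε) (hε2 : ε < 1 / 2) (hη : 0 < η) :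
    ∃ p : Polynomial ℝ, ∀ s ∈ Set.Icc ε (1 - ε), ∀ t ∈ Set.Icc ε (1 - ε),
      ∀ r ∈ Set.Icc ε (1 - ε), s ≠ t →
      4 * (p.eval (s + r) * p.eval (t + r)) +
        2 * ((p.eval (s + r) - p.eval (t + r)) / (s - t)) + π ^ 2 / 4 ≤ η := by
  have hcont : ContinuousOn b0 (Set.Icc (2 * ε) (2 - 2 * ε)) := by
    intro x hx
    exact (hasDerivAt_b0 (by linarith [hx.1]) (by linarith [hx.2])).continuousAt.continuousWithinAt
  obtain ⟨B, hB⟩ := isCompact_Icc.exists_bound_of_continuousOn hcont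
  have hB0 : 0 ≤ B := le_trans (norm_nonneg _) (hB 1 ⟨by linarith, by linarith⟩)
  set δ : ℝ := min 1 (η / (8 * B + 8)) with hδ
  have hδ0 : 0 < δ := lt_min one_pos (by positivity)
  have hδ1 : δ ≤ 1 := min_le_left _ _
  have hδ2 : δ * (8 * B + 8) ≤ η := by
    have : δ ≤ η / (8 * B + 8) := min_le_right _ _
    rwa [le_div_iff₀ (by positivity)] at this
  obtain ⟨p, hp1, hp2⟩ := exists_poly_near_b0 (a := 2 * ε) (b := 2 - 2 * ε) (δ := δ)
    (by linarith) (by linarith) (by linarith) (by linarith) hδ0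
  refine ⟨p, ?_⟩
  intro s hs t ht r hr hst
  have hsr : s + r ∈ Set.Icc (2 * ε) (2 - 2 * ε) := ⟨by linarith [hs.1, hr.1], by linarith [hs.2, hr.2]⟩
  have htr : t + r ∈ Set.Icc (2 * ε) (2 - 2 * ε) := ⟨by linarith [ht.1, hr.1], by linarith [ht.2, hr.2]⟩
  have hk := b0_kernel (s := s) (t := t) (r := r) (by linarith [hs.1]) (by linarith [hs.2])
    (by linarith [ht.1]) (by linarith [ht.2]) (by linarith [hr.1]) (by linarith [hr.2]) hst
  have h1 := hp1 _ hsr
  have h2 := hp1 _ htr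
  have h3 := hp2 _ hsr _ htr
  have hB1 := hB _ hsr
  have hB2 := hB _ htr
  rw [Real.norm_eq_abs] at hB1 hB2
  have hne : s - t ≠ 0 := sub_ne_zero.mpr hst
  have h4 : |((p.eval (s + r) - b0 (s + r)) - (p.eval (t + r) - b0 (t + r))) / (s - t)| ≤ δ := by
    rw [abs_div, div_le_iff₀ (abs_pos.mpr hne)]
    have : s + r - (t + r) = s - t := by ring
    rw [this] at h3
    exact h3
  have h5 : |p.eval (s + r) * p.eval (t + r) - b0 (s + r) * b0 (t + r)| ≤ δ * (2 * B + 1) := by
    have e : p.eval (s + r) * p.eval (t + r) - b0 (s + r) * b0 (t + r)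
        = (p.eval (s + r) - b0 (s + r)) * (p.eval (t + r) - b0 (t + r))
          + (p.eval (s + r) - b0 (s + r)) * b0 (t + r)
          + b0 (s + r) * (p.eval (t + r) - b0 (t + r)) := by ring
    rw [e]
    calc _ ≤ |(p.eval (s + r) - b0 (s + r)) * (p.eval (t + r) - b0 (t + r))|
          + |(p.eval (s + r) - b0 (s + r)) * b0 (t + r)|
          + |b0 (s + r) * (p.eval (t + r) - b0 (t + r))| := by
            refine (abs_add_le _ _).trans ?_
            gcongr
            exact abs_add_le _ _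
      _ ≤ δ * δ + δ * B + B * δ := by
            rw [abs_mul, abs_mul, abs_mul]
            gcongr
      _ ≤ δ * (2 * B + 1) := by nlinarith
  have e2 : (p.eval (s + r) - p.eval (t + r)) / (s - t)
      = (b0 (s + r) - b0 (t + r)) / (s - t)
        + ((p.eval (s + r) - b0 (s + r)) - (p.eval (t + r) - b0 (t + r))) / (s - t) := by
    field_simp
    ring
  have h6 := (abs_le.mp h5).2
  have h7 := (abs_le.mp h4).2
  rw [e2]
  nlinarith

end Pool.Agent.LiebT
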