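import Mathlib
import Pool.Agent.LiebT.PolyApprox

open Real Finset

set_option autoImplicit false

namespace Pool.Agent.LiebT

/-- coefficients of `p (r + t)` -/
noncomputable def cf (p : Polynomial ℝ) (k l : ℕ) : ℝ := ((k + l).choose l : ℝ) * p.coeff (k + l)

theorem cf_symm (p : Polynomial ℝ) (k l : ℕ) : cf p k l = cf p l k := by
  unfold cf
  rw [add_comm l k, Nat.choose_symm_add]

theorem eval_add_eq (p : Polynomial ℝ) (r t : ℝ) :
    p.eval (r + t) = ∑ k ∈ range (p.natDegree + 1), ∑ l ∈ range (p.natDegree + 1),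
      cf p k l * (r ^ k * t ^ l) := by
  have h1 : p.eval (r + t) = (Polynomial.taylor r p).eval t := by
    rw [Polynomial.taylor_eval, add_comm]
  rw [h1, Polynomial.eval_eq_sum_range' (n := p.natDegree + 1)
    (by rw [Polynomial.natDegree_taylor]; omega), Finset.sum_comm]
  apply Finset.sum_congr rfl
  intro l _
  rw [Polynomial.taylor_coeff, Polynomial.eval_eq_sum_range' (n := p.natDegree + 1)
    (lt_of_le_of_lt (Polynomial.natDegree_hasseDeriv_le p l) (by omega)), Finset.sum_mul]
  apply Finset.sum_congr rfl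
  intro k _
  rw [Polynomial.hasseDeriv_coeff]
  unfold cf
  ring

/-- divided difference of `p (r + ·)` at `s, t`, as a polynomial expression -/
noncomputable def ddp (p : Polynomial ℝ) (s t r : ℝ) : ℝ :=
  ∑ k ∈ range (p.natDegree + 1), ∑ l ∈ range (p.natDegree + 1),
      cf p k l * (r ^ k * ∑ a ∈ range l, s ^ a * t ^ (l - 1 - a))

theorem ddp_mul (p : Polynomial ℝ) (s t r : ℝ) :
    ddp p s t r * (s - t) = p.eval (s + r) - p.eval (t + r) := by
  rw [add_comm s r, add_comm t r, eval_add_eq, eval_add_eq, ← Finset.sum_sub_distrib]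
  unfold ddp
  rw [Finset.sum_mul]
  apply Finset.sum_congr rfl
  intro k _
  rw [← Finset.sum_sub_distrib, Finset.sum_mul]
  apply Finset.sum_congr rfl
  intro l _
  have := (Commute.all s t).geom_sum₂_mul l
  rw [← mul_sub, ← mul_sub, ← this]
  ring

theorem continuous_ddp (p : Polynomial ℝ) (t r : ℝ) : Continuous (fun s => ddp p s t r) := by
  unfold ddp
  fun_prop

theorem kernel_all {p : Polynomial ℝ} {ε η : ℝ} (hε2 : ε < 1 / 2)
    (h : ∀ s ∈ Set.Icc ε (1 - ε), ∀ t ∈ Set.Icc ε (1 - ε),
      ∀ r ∈ Set.Icc ε (1 - ε), s ≠ t →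
      4 * (p.eval (s + r) * p.eval (t + r)) +
        2 * ((p.eval (s + r) - p.eval (t + r)) / (s - t)) + π ^ 2 / 4 ≤ η)
    {s t r : ℝ} (hs : s ∈ Set.Icc ε (1 - ε)) (ht : t ∈ Set.Icc ε (1 - ε))
    (hr : r ∈ Set.Icc ε (1 - ε)) :
      4 * (p.eval (s + r) * p.eval (t + r)) + 2 * ddp p s t r + π ^ 2 / 4 ≤ η := by
  have hmain : ∀ s ∈ Set.Icc ε (1 - ε), s ≠ t →
      4 * (p.eval (s + r) * p.eval (t + r)) + 2 * ddp p s t r + π ^ 2 / 4 ≤ η := by
    intro s hs hst
    have h1 := h s hs t ht r hr hst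
    rw [← ddp_mul, mul_div_cancel_right₀ _ (sub_ne_zero.mpr hst)] at h1
    exact h1
  by_cases hst : s = t
  · subst hst
    set f : ℝ → ℝ := fun u =>
      4 * (p.eval (u + r) * p.eval (s + r)) + 2 * ddp p u s r + π ^ 2 / 4 with hf
    have hfc : Continuous f := by
      have := continuous_ddp p s r
      have h2 : Continuous (fun u : ℝ => p.eval (u + r)) := p.continuous.comp (by fun_prop)
      rw [hf]
      fun_prop
    have hcl : IsClosed {u | f u ≤ η} := isClosed_le hfc continuous_const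
    -- approach `s` from inside the interval
    have hmem : s ∈ closure (Set.Icc ε (1 - ε) \ {s}) := by
      have hnt : (Set.Icc ε (1 - ε)).Nontrivial :=
        ⟨ε, ⟨le_refl _, by linarith⟩, 1 - ε, ⟨by linarith, le_refl _⟩, by intro hh; linarith⟩
      have hpre : IsPreconnected (Set.Icc ε (1 - ε)) := isPreconnected_Icc
      have := hpre.preperfect_of_nontrivial hnt s hs
      rw [accPt_principal_iff_clusterPt, ← mem_closure_iff_clusterPt] at this
      exact this
    have hsub : Set.Icc ε (1 - ε) \ {s} ⊆ {u | f u ≤ η} := by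
      intro u hu
      exact hmain u hu.1 hu.2
    exact (closure_minimal hsub hcl) hmem
  · exact hmain s hs hst

end Pool.Agent.LiebT
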