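import Mathlib
import Pool.Agent.LiebT.Coeff

open Real Finset

set_option autoImplicit false

namespace Pool.Agent.LiebT

variable {H : Type*} [NormedAddCommGroup H] [InnerProductSpace ℂ H] [FiniteDimensional ℂ H]

theorem spectral {T : H →ₗ[ℂ] H} (hT : T.IsSymmetric) {ε : ℝ}
    (hlo : ∀ v : H, ε * ‖v‖ ^ 2 ≤ (inner ℂ v (T v)).re)
    (hhi : ∀ v : H, (inner ℂ v (T v)).re ≤ (1 - ε) * ‖v‖ ^ 2) (u : H) :
    ∃ (n : ℕ) (m w : Fin n → ℝ), (∀ i, 0 ≤ w i) ∧ (∀ i, m i ∈ Set.Icc ε (1 - ε)) ∧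
      (∀ l : ℕ, (inner ℂ u ((T ^ l) u)) = ((∑ i, w i * m i ^ l : ℝ) : ℂ)) ∧
      (∀ (L : ℕ) (α : ℕ → ℝ), ‖∑ l ∈ range L, (α l : ℂ) • (T ^ l) u‖ ^ 2
        = ∑ i, w i * (∑ l ∈ range L, α l * m i ^ l) ^ 2) := by
  set n := Module.finrank ℂ H with hn
  set b := hT.eigenvectorBasis hn.symm with hb
  set m := hT.eigenvalues hn.symm with hm
  have hpow : ∀ (l : ℕ) (i : Fin n), b.repr ((T ^ l) u) i = ((m i ^ l : ℝ) : ℂ) * b.repr u i := by
    intro l
    induction l with
    | zero => intro i; simp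
    | succ l ih =>
      intro i
      rw [pow_succ', Module.End.mul_apply, hT.eigenvectorBasis_apply_self_apply hn.symm, ih i,
        pow_succ']
      change (m i : ℂ) * (((m i ^ l : ℝ) : ℂ) * b.repr u i) = _
      push_cast
      ring
  refine ⟨n, m, fun i => ‖b.repr u i‖ ^ 2, fun i => by positivity, ?_, ?_, ?_⟩
  · intro i
    have h1 : T (b i) = (m i : ℂ) • b i := hT.apply_eigenvectorBasis hn.symm i
    have hnorm : ‖b i‖ = 1 := b.orthonormal.1 i
    have h2 : (inner ℂ (b i) (T (b i))).re = m i := by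
      rw [h1, inner_smul_right, inner_self_eq_norm_sq_to_K, hnorm]
      simp
    have h3 := hlo (b i)
    have h4 := hhi (b i)
    rw [h2, hnorm] at h3 h4
    constructor <;> linarith
  · intro l
    rw [← b.repr.inner_map_map, PiLp.inner_apply]
    push_cast
    apply Finset.sum_congr rfl
    intro i _
    rw [hpow l i]
    simp only [RCLike.inner_apply]
    have : (b.repr u i) * (starRingEnd ℂ) (b.repr u i) = ((‖b.repr u i‖ ^ 2 : ℝ) : ℂ) := by
      rw [Complex.mul_conj, Complex.normSq_eq_norm_sq]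
    push_cast at this
    rw [← this]
    push_cast
    ring
  · intro L α
    rw [← b.repr.norm_map, EuclideanSpace.norm_sq_eq]
    apply Finset.sum_congr rfl
    intro i _
    have : b.repr (∑ l ∈ range L, (α l : ℂ) • (T ^ l) u) i
        = ((∑ l ∈ range L, α l * m i ^ l : ℝ) : ℂ) * b.repr u i := by
      rw [map_sum]
      simp only [map_smul, WithLp.ofLp_sum, Finset.sum_apply, PiLp.smul_apply, smul_eq_mul]
      push_cast
      rw [Finset.sum_mul]
      apply Finset.sum_congr rfl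
      intro l _
      rw [hpow l i]
      push_cast
      ring
    rw [this, norm_mul, mul_pow, Complex.norm_real, Real.norm_eq_abs, sq_abs]
    ring

end Pool.Agent.LiebT
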