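import Mathlib
import Pool.Agent.LiebT.Spectral

open Real Finset

set_option autoImplicit false

namespace Pool.Agent.LiebT

variable {H : Type*} [NormedAddCommGroup H] [InnerProductSpace ℂ H] [FiniteDimensional ℂ H]

/-- moments -/
noncomputable def mu (T : H →ₗ[ℂ] H) (u : H) (l : ℕ) : ℝ := (inner ℂ u ((T ^ l) u)).re

/-- derivative of the moments along the flow -/
noncomputable def dmu (T : H →ₗ[ℂ] H) (u u' : H) (l : ℕ) : ℝ :=
  2 * (inner ℂ u' ((T ^ l) u)).re + ∑ a ∈ range l, mu T u a * mu T u (l - 1 - a)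

theorem pointwise_ineq {T : H →ₗ[ℂ] H} (hT : T.IsSymmetric) {ε η : ℝ} (p : Polynomial ℝ)
    (hlo : ∀ v : H, ε * ‖v‖ ^ 2 ≤ (inner ℂ v (T v)).re)
    (hhi : ∀ v : H, (inner ℂ v (T v)).re ≤ (1 - ε) * ‖v‖ ^ 2)
    (hk : ∀ s ∈ Set.Icc ε (1 - ε), ∀ t ∈ Set.Icc ε (1 - ε), ∀ r ∈ Set.Icc ε (1 - ε),
      4 * (p.eval (s + r) * p.eval (t + r)) + 2 * ddp p s t r + π ^ 2 / 4 ≤ η) (u u' : H) :
    2 * ∑ k ∈ range (p.natDegree + 1), ∑ l ∈ range (p.natDegree + 1),
      cf p k l * (mu T u k * dmu T u u' l) ≤ ‖u'‖ ^ 2 - (π ^ 2 / 4 - η) * ‖u‖ ^ 6 := by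
  obtain ⟨n, m, w, hw, hm, hmu, hnorm⟩ := spectral hT hlo hhi u
  set D := p.natDegree + 1 with hD
  have hmu' : ∀ l, mu T u l = ∑ i, w i * m i ^ l := by
    intro l
    unfold mu
    rw [hmu l, Complex.ofReal_re]
  have hu2 : ‖u‖ ^ 2 = ∑ i, w i := by
    have h0 := hmu 0
    simp only [pow_zero, Module.End.one_apply, mul_one] at h0
    have h1 : (inner ℂ u u).re = ‖u‖ ^ 2 := inner_self_eq_norm_sq (𝕜 := ℂ) u
    rw [← h1, h0, Complex.ofReal_re]
  -- the vector Z
  set α : ℕ → ℝ := fun l => ∑ k ∈ range D, cf p k l * mu T u k with hα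
  set Z : H := ∑ l ∈ range D, (α l : ℂ) • (T ^ l) u with hZ
  have hg : ∀ i, ∑ l ∈ range D, α l * m i ^ l = ∑ j, w j * p.eval (m j + m i) := by
    intro i
    have : ∀ j, w j * p.eval (m j + m i) = ∑ k ∈ range D, ∑ l ∈ range D,
        w j * (cf p k l * (m j ^ k * m i ^ l)) := by
      intro j
      rw [eval_add_eq, Finset.mul_sum]
      exact Finset.sum_congr rfl fun k _ => by rw [Finset.mul_sum]
    simp only [this]
    rw [Finset.sum_comm]
    simp only [hα, Finset.sum_mul]
    rw [Finset.sum_comm]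
    apply Finset.sum_congr rfl
    intro k _
    rw [Finset.sum_comm]
    apply Finset.sum_congr rfl
    intro l _
    rw [hmu', Finset.mul_sum, Finset.sum_mul]
    apply Finset.sum_congr rfl
    intro j _
    ring
  have hZ2 : ‖Z‖ ^ 2 = ∑ i, ∑ j, ∑ k, w i * w j * w k *
      (p.eval (m j + m i) * p.eval (m k + m i)) := by
    rw [hZ, hnorm D α]
    apply Finset.sum_congr rfl
    intro i _
    rw [hg i, sq, Finset.sum_mul_sum, Finset.mul_sum]
    apply Finset.sum_congr rfl
    intro j _
    rw [Finset.mul_sum]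
    apply Finset.sum_congr rfl
    intro k _
    ring
  -- split the left side
  have hsplit : 2 * ∑ k ∈ range D, ∑ l ∈ range D, cf p k l * (mu T u k * dmu T u u' l)
      = 4 * (inner ℂ u' Z).re + 2 * ∑ k ∈ range D, ∑ l ∈ range D,
          cf p k l * (mu T u k * ∑ a ∈ range l, mu T u a * mu T u (l - 1 - a)) := by
    have h1 : (inner ℂ u' Z).re = ∑ k ∈ range D, ∑ l ∈ range D,
        cf p k l * (mu T u k * (inner ℂ u' ((T ^ l) u)).re) := by
      rw [hZ, inner_sum, Complex.re_sum, Finset.sum_comm]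
      apply Finset.sum_congr rfl
      intro l _
      rw [inner_smul_right, Complex.re_ofReal_mul, hα]
      simp only
      rw [Finset.sum_mul]
      apply Finset.sum_congr rfl
      intro k _
      ring
    rw [h1, Finset.mul_sum, Finset.mul_sum, Finset.mul_sum, ← Finset.sum_add_distrib]
    apply Finset.sum_congr rfl
    intro k _
    rw [Finset.mul_sum, Finset.mul_sum, Finset.mul_sum, ← Finset.sum_add_distrib]
    apply Finset.sum_congr rfl
    intro l _
    unfold dmu
    ring
  have hdd : ∑ k ∈ range D, ∑ l ∈ range D,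
          cf p k l * (mu T u k * ∑ a ∈ range l, mu T u a * mu T u (l - 1 - a))
      = ∑ i, ∑ j, ∑ k, w i * w j * w k * ddp p (m j) (m k) (m i) := by
    unfold ddp
    rw [← hD]
    have e1 : ∀ k l, cf p k l * (mu T u k * ∑ a ∈ range l, mu T u a * mu T u (l - 1 - a))
        = ∑ i, ∑ j, ∑ q, w i * w j * w q *
          (cf p k l * (m i ^ k * ∑ a ∈ range l, m j ^ a * m q ^ (l - 1 - a))) := by
      intro k l
      simp only [hmu']
      have : ∑ a ∈ range l, (∑ i, w i * m i ^ a) * (∑ i, w i * m i ^ (l - 1 - a))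
          = ∑ j, ∑ q, w j * w q * ∑ a ∈ range l, m j ^ a * m q ^ (l - 1 - a) := by
        have s0 : ∀ a ∈ range l, (∑ i, w i * m i ^ a) * (∑ i, w i * m i ^ (l - 1 - a))
            = ∑ j, ∑ q, w j * w q * (m j ^ a * m q ^ (l - 1 - a)) := by
          intro a _
          rw [Finset.sum_mul_sum]
          apply Finset.sum_congr rfl
          intro j _
          apply Finset.sum_congr rfl
          intro q _
          ring
        rw [Finset.sum_congr rfl s0, Finset.sum_comm]
        apply Finset.sum_congr rfl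
        intro j _
        rw [Finset.sum_comm]
        apply Finset.sum_congr rfl
        intro q _
        rw [Finset.mul_sum]
      rw [this, Finset.sum_mul, Finset.mul_sum]
      apply Finset.sum_congr rfl
      intro i _
      rw [Finset.mul_sum, Finset.mul_sum]
      apply Finset.sum_congr rfl
      intro j _
      rw [Finset.mul_sum, Finset.mul_sum]
      apply Finset.sum_congr rfl
      intro q _
      ring
    simp only [e1]
    calc ∑ k ∈ range D, ∑ l ∈ range D, ∑ i, ∑ j, ∑ q, w i * w j * w q *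
          (cf p k l * (m i ^ k * ∑ a ∈ range l, m j ^ a * m q ^ (l - 1 - a)))
        = ∑ i, ∑ j, ∑ q, ∑ k ∈ range D, ∑ l ∈ range D, w i * w j * w q *
          (cf p k l * (m i ^ k * ∑ a ∈ range l, m j ^ a * m q ^ (l - 1 - a))) := by
          have s1 : ∀ k, ∑ l ∈ range D, ∑ i, ∑ j, ∑ q, w i * w j * w q *
            (cf p k l * (m i ^ k * ∑ a ∈ range l, m j ^ a * m q ^ (l - 1 - a)))
            = ∑ i, ∑ j, ∑ q, ∑ l ∈ range D, w i * w j * w q *
            (cf p k l * (m i ^ k * ∑ a ∈ range l, m j ^ a * m q ^ (l - 1 - a))) := by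
            intro k
            rw [Finset.sum_comm]
            apply Finset.sum_congr rfl
            intro i _
            rw [Finset.sum_comm]
            apply Finset.sum_congr rfl
            intro j _
            rw [Finset.sum_comm]
          simp only [s1]
          rw [Finset.sum_comm]
          apply Finset.sum_congr rfl
          intro i _
          rw [Finset.sum_comm]
          apply Finset.sum_congr rfl
          intro j _
          rw [Finset.sum_comm]
      _ = _ := by
          apply Finset.sum_congr rfl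
          intro i _
          apply Finset.sum_congr rfl
          intro j _
          apply Finset.sum_congr rfl
          intro q _
          rw [Finset.mul_sum]
          apply Finset.sum_congr rfl
          intro k _
          rw [Finset.mul_sum]
  have hu6 : ‖u‖ ^ 6 = ∑ i, ∑ j, ∑ k, w i * w j * w k := by
    have : ‖u‖ ^ 6 = (‖u‖ ^ 2) * ((‖u‖ ^ 2) * (‖u‖ ^ 2)) := by ring
    rw [this, hu2, Finset.sum_mul]
    apply Finset.sum_congr rfl
    intro i _
    rw [Finset.sum_mul, Finset.mul_sum]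
    apply Finset.sum_congr rfl
    intro j _
    rw [Finset.mul_sum, Finset.mul_sum]
    apply Finset.sum_congr rfl
    intro k _
    ring
  have hcs : 4 * (inner ℂ u' Z).re ≤ ‖u'‖ ^ 2 + 4 * ‖Z‖ ^ 2 := by
    have h1 : (inner ℂ u' Z).re ≤ ‖u'‖ * ‖Z‖ := re_inner_le_norm (𝕜 := ℂ) u' Z
    nlinarith [sq_nonneg (‖u'‖ - 2 * ‖Z‖)]
  have hfin : 4 * ‖Z‖ ^ 2 + 2 * ∑ k ∈ range D, ∑ l ∈ range D,
          cf p k l * (mu T u k * ∑ a ∈ range l, mu T u a * mu T u (l - 1 - a))
      ≤ (η - π ^ 2 / 4) * ‖u‖ ^ 6 := by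
    rw [hdd, hZ2, hu6, Finset.mul_sum, Finset.mul_sum, Finset.mul_sum, ← Finset.sum_add_distrib]
    apply Finset.sum_le_sum
    intro i _
    rw [Finset.mul_sum, Finset.mul_sum, Finset.mul_sum, ← Finset.sum_add_distrib]
    apply Finset.sum_le_sum
    intro j _
    rw [Finset.mul_sum, Finset.mul_sum, Finset.mul_sum, ← Finset.sum_add_distrib]
    apply Finset.sum_le_sum
    intro k _
    have h1 := hk (m j) (hm j) (m k) (hm k) (m i) (hm i)
    have h2 : 0 ≤ w i * w j * w k := mul_nonneg (mul_nonneg (hw i) (hw j)) (hw k)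
    nlinarith
  rw [hsplit]
  linarith

end Pool.Agent.LiebT
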