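import Mathlib
import Pool.Agent.LiebT.Pointwise

open Real Finset

set_option autoImplicit false

namespace Pool.Agent.LiebT

variable {H : Type*} [NormedAddCommGroup H] [InnerProductSpace ℂ H] [FiniteDimensional ℂ H]

theorem hasDerivAt_clm_apply {M : ℝ → (H →L[ℂ] H)} {M' : H →L[ℂ] H} {V : ℝ → H} {V' : H} {x : ℝ}
    (hM : HasDerivAt M M' x) (hV : HasDerivAt V V' x) :
    HasDerivAt (fun y => M y (V y)) (M' (V x) + M x V') x := by
  have h1 : HasDerivAt (fun y => (M y).restrictScalars ℝ) (M'.restrictScalars ℝ) x :=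
    (ContinuousLinearMap.restrictScalarsL ℂ H H ℝ ℝ).hasFDerivAt.comp_hasDerivAt x hM
  exact h1.clm_apply hV

/-- `M^l U` -/
noncomputable def vl (M : ℝ → (H →L[ℂ] H)) (U : ℝ → H) (l : ℕ) (x : ℝ) : H :=
  (((M x : H →ₗ[ℂ] H)) ^ l) (U x)

theorem vl_succ (M : ℝ → (H →L[ℂ] H)) (U : ℝ → H) (l : ℕ) (x : ℝ) :
    vl M U (l + 1) x = M x (vl M U l x) := by
  unfold vl
  rw [pow_succ', Module.End.mul_apply]
  rfl

theorem hasDerivAt_vl {M : ℝ → (H →L[ℂ] H)} {U : ℝ → H} {U' : H} {x : ℝ}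
    (hM : HasDerivAt M (InnerProductSpace.rankOne ℂ (U x) (U x)) x) (hU : HasDerivAt U U' x)
    (l : ℕ) :
    HasDerivAt (vl M U l) ((((M x : H →ₗ[ℂ] H)) ^ l) U' +
      ∑ a ∈ range l, (inner ℂ (U x) (vl M U (l - 1 - a) x)) • vl M U a x) x := by
  induction l with
  | zero =>
    simp only [pow_zero, Module.End.one_apply, range_zero, sum_empty, add_zero]
    have : vl M U 0 = U := by
      funext y
      simp [vl]
    rw [this]
    exact hU
  | succ l ih =>
    have h := hasDerivAt_clm_apply hM ih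
    have e1 : (fun y => M y (vl M U l y)) = vl M U (l + 1) := by
      funext y
      rw [vl_succ]
    rw [e1] at h
    convert h using 1
    rw [InnerProductSpace.rankOne_apply, map_add, map_sum]
    simp only [map_smul]
    rw [Finset.sum_range_succ']
    have e2 : (((M x : H →ₗ[ℂ] H)) ^ (l + 1)) U' = M x ((((M x : H →ₗ[ℂ] H)) ^ l) U') := by
      rw [pow_succ', Module.End.mul_apply]
      rfl
    have e3 : vl M U 0 x = U x := by simp [vl]
    have e4 : ∀ k, l + 1 - 1 - (k + 1) = l - 1 - k := by intro k; omega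
    have e5 : l + 1 - 1 - 0 = l := by omega
    rw [e2, e3, e5]
    simp only [e4, vl_succ]
    abel

theorem hasDerivAt_mu {M : ℝ → (H →L[ℂ] H)} {U : ℝ → H} {U' : H} {x : ℝ}
    (hM : HasDerivAt M (InnerProductSpace.rankOne ℂ (U x) (U x)) x) (hU : HasDerivAt U U' x)
    (hsym : ((M x : H →ₗ[ℂ] H)).IsSymmetric) (l : ℕ) :
    HasDerivAt (fun y => mu (M y : H →ₗ[ℂ] H) (U y) l) (dmu (M x : H →ₗ[ℂ] H) (U x) U' l) x := by
  have hv := hasDerivAt_vl hM hU l
  have h1 := (hU.inner ℂ hv)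
  have h2 := (Complex.reCLM.hasFDerivAt (x := inner ℂ (U x) (vl M U l x))).comp_hasDerivAt x h1
  have e : (fun y => mu (M y : H →ₗ[ℂ] H) (U y) l) =
      (Complex.reCLM ∘ fun t => inner ℂ (U t) (vl M U l t)) := by
    funext y
    rfl
  rw [e]
  refine h2.congr_deriv ?_
  unfold dmu
  rw [Complex.reCLM_apply, inner_add_right, inner_sum]
  have hreal : ∀ k, inner ℂ (U x) (vl M U k x) = ((mu (M x : H →ₗ[ℂ] H) (U x) k : ℝ) : ℂ) := by
    intro k
    unfold mu vl
    exact ((hsym.pow k).coe_re_inner_self_apply (U x)).symm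
  have h3 : (inner ℂ (U x) ((((M x : H →ₗ[ℂ] H)) ^ l) U')).re
      = (inner ℂ U' ((((M x : H →ₗ[ℂ] H)) ^ l) (U x))).re := by
    rw [← (hsym.pow l) (U x) U', ← inner_conj_symm, Complex.conj_re]
  simp only [inner_smul_right, Complex.add_re, Complex.re_sum, hreal]
  rw [h3]
  simp only [← Complex.ofReal_mul, Complex.ofReal_re]
  have h4 : ∑ a ∈ range l, mu (M x : H →ₗ[ℂ] H) (U x) (l - 1 - a) * mu (M x : H →ₗ[ℂ] H) (U x) a
    = ∑ a ∈ range l, mu (M x : H →ₗ[ℂ] H) (U x) a * mu (M x : H →ₗ[ℂ] H) (U x) (l - 1 - a) :=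
    Finset.sum_congr rfl fun a _ => mul_comm _ _
  rw [h4]
  unfold vl
  ring

end Pool.Agent.LiebT
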