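import Mathlib
import Pool.Agent.LiebT.Flow

open Real Finset

set_option autoImplicit false

namespace Pool.Agent.LiebT

variable {H : Type*} [NormedAddCommGroup H] [InnerProductSpace ℂ H] [FiniteDimensional ℂ H]

/-- the calibration -/
noncomputable def Phi (p : Polynomial ℝ) (M : ℝ → (H →L[ℂ] H)) (U : ℝ → H) (x : ℝ) : ℝ :=
  ∑ k ∈ range (p.natDegree + 1), ∑ l ∈ range (p.natDegree + 1),
    cf p k l * (mu (M x : H →ₗ[ℂ] H) (U x) k * mu (M x : H →ₗ[ℂ] H) (U x) l)

theorem mu_zero (T : H →ₗ[ℂ] H) (l : ℕ) : mu T 0 l = 0 := by simp [mu]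

theorem hasDerivAt_Phi (p : Polynomial ℝ) {M : ℝ → (H →L[ℂ] H)} {U : ℝ → H} {U' : H} {x : ℝ}
    (hM : HasDerivAt M (InnerProductSpace.rankOne ℂ (U x) (U x)) x) (hU : HasDerivAt U U' x)
    (hsym : ((M x : H →ₗ[ℂ] H)).IsSymmetric) :
    HasDerivAt (Phi p M U) (2 * ∑ k ∈ range (p.natDegree + 1), ∑ l ∈ range (p.natDegree + 1),
      cf p k l * (mu (M x : H →ₗ[ℂ] H) (U x) k * dmu (M x : H →ₗ[ℂ] H) (U x) U' l)) x := by
  have h : HasDerivAt (Phi p M U) (∑ k ∈ range (p.natDegree + 1), ∑ l ∈ range (p.natDegree + 1),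
      cf p k l * (dmu (M x : H →ₗ[ℂ] H) (U x) U' k * mu (M x : H →ₗ[ℂ] H) (U x) l +
        mu (M x : H →ₗ[ℂ] H) (U x) k * dmu (M x : H →ₗ[ℂ] H) (U x) U' l)) x := by
    unfold Phi
    apply HasDerivAt.fun_sum
    intro k _
    apply HasDerivAt.fun_sum
    intro l _
    exact ((hasDerivAt_mu hM hU hsym k).mul (hasDerivAt_mu hM hU hsym l)).const_mul _
  refine h.congr_deriv ?_
  simp only [mul_add, Finset.sum_add_distrib]
  have : ∑ k ∈ range (p.natDegree + 1), ∑ l ∈ range (p.natDegree + 1),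
      cf p k l * (dmu (M x : H →ₗ[ℂ] H) (U x) U' k * mu (M x : H →ₗ[ℂ] H) (U x) l)
      = ∑ k ∈ range (p.natDegree + 1), ∑ l ∈ range (p.natDegree + 1),
      cf p k l * (mu (M x : H →ₗ[ℂ] H) (U x) k * dmu (M x : H →ₗ[ℂ] H) (U x) U' l) := by
    rw [Finset.sum_comm]
    apply Finset.sum_congr rfl
    intro k _
    apply Finset.sum_congr rfl
    intro l _
    rw [cf_symm]
    ring
  rw [this]
  ring

theorem core {a b ε : ℝ} (hab : a ≤ b) (hε : 0 < ε) (hε2 : ε < 1 / 2) {U U' : ℝ → H}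
    {M : ℝ → (H →L[ℂ] H)} (hU : ∀ x, HasDerivAt U (U' x) x) (hU' : Continuous U')
    (hM : ∀ x, HasDerivAt M (InnerProductSpace.rankOne ℂ (U x) (U x)) x)
    (hsym : ∀ x, ((M x : H →ₗ[ℂ] H)).IsSymmetric)
    (hlo : ∀ x ∈ Set.Icc a b, ∀ v : H, ε * ‖v‖ ^ 2 ≤ (inner ℂ v (M x v)).re)
    (hhi : ∀ x ∈ Set.Icc a b, ∀ v : H, (inner ℂ v (M x v)).re ≤ (1 - ε) * ‖v‖ ^ 2)
    (hUa : U a = 0) (hUb : U b = 0) :
    π ^ 2 / 4 * ∫ x in a..b, ‖U x‖ ^ 6 ≤ ∫ x in a..b, ‖U' x‖ ^ 2 := by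
  have hUc : Continuous U := continuous_iff_continuousAt.mpr fun x => (hU x).continuousAt
  have hvc : ∀ l, Continuous (vl M U l) := fun l =>
    continuous_iff_continuousAt.mpr fun x => (hasDerivAt_vl (hM x) (hU x) l).continuousAt
  have hmc : ∀ l, Continuous (fun x => mu (M x : H →ₗ[ℂ] H) (U x) l) := fun l =>
    continuous_iff_continuousAt.mpr fun x => (hasDerivAt_mu (hM x) (hU x) (hsym x) l).continuousAt
  have hdc : ∀ l, Continuous (fun x => dmu (M x : H →ₗ[ℂ] H) (U x) (U' x) l) := by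
    intro l
    unfold dmu
    apply Continuous.add
    · apply Continuous.mul continuous_const
      have : (fun x => (inner ℂ (U' x) (((M x : H →ₗ[ℂ] H) ^ l) (U x))).re)
          = fun x => (inner ℂ (U' x) (vl M U l x)).re := rfl
      rw [this]
      exact Complex.continuous_re.comp (hU'.inner (hvc l))
    · apply continuous_finsetSum
      intro a _
      exact (hmc a).mul (hmc _)
  set I6 := ∫ x in a..b, ‖U x‖ ^ 6 with hI6
  set I2 := ∫ x in a..b, ‖U' x‖ ^ 2 with hI2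
  have hI60 : 0 ≤ I6 := intervalIntegral.integral_nonneg hab fun x _ => by positivity
  have key : ∀ η : ℝ, 0 < η → (π ^ 2 / 4 - η) * I6 ≤ I2 := by
    intro η hη
    obtain ⟨p, hp⟩ := exists_poly_kernel hε hε2 hη
    have hk : ∀ s ∈ Set.Icc ε (1 - ε), ∀ t ∈ Set.Icc ε (1 - ε), ∀ r ∈ Set.Icc ε (1 - ε),
      4 * (p.eval (s + r) * p.eval (t + r)) + 2 * ddp p s t r + π ^ 2 / 4 ≤ η :=
      fun s hs t ht r hr => kernel_all hε2 hp hs ht hr
    set F' : ℝ → ℝ := fun x => 2 * ∑ k ∈ range (p.natDegree + 1), ∑ l ∈ range (p.natDegree + 1),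
      cf p k l * (mu (M x : H →ₗ[ℂ] H) (U x) k * dmu (M x : H →ₗ[ℂ] H) (U x) (U' x) l) with hF'
    have hF'c : Continuous F' := by
      rw [hF']
      apply Continuous.mul continuous_const
      apply continuous_finsetSum
      intro k _
      apply continuous_finsetSum
      intro l _
      exact continuous_const.mul ((hmc k).mul (hdc l))
    have hint : ∫ x in a..b, F' x = 0 := by
      rw [intervalIntegral.integral_eq_sub_of_hasDerivAt
        (fun x _ => hasDerivAt_Phi p (hM x) (hU x) (hsym x)) (hF'c.intervalIntegrable a b)]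
      unfold Phi
      rw [hUa, hUb]
      simp [mu_zero]
    have hle : ∫ x in a..b, F' x ≤ ∫ x in a..b, (‖U' x‖ ^ 2 - (π ^ 2 / 4 - η) * ‖U x‖ ^ 6) := by
      apply intervalIntegral.integral_mono_on hab (hF'c.intervalIntegrable a b)
      · apply Continuous.intervalIntegrable
        fun_prop
      · intro x hx
        exact pointwise_ineq (hsym x) p (hlo x hx) (hhi x hx) hk (U x) (U' x)
    rw [hint, intervalIntegral.integral_sub (Continuous.intervalIntegrable (by fun_prop) _ _)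
      (Continuous.intervalIntegrable (by fun_prop) _ _), intervalIntegral.integral_const_mul] at hle
    linarith
  by_contra hcon
  push Not at hcon
  by_cases h0 : I6 = 0
  · have := key 1 one_pos
    rw [h0] at this hcon
    linarith
  · have hpos : 0 < I6 := lt_of_le_of_ne hI60 (Ne.symm h0)
    have := key ((π ^ 2 / 4 * I6 - I2) / (2 * I6)) (by
      apply div_pos (by linarith) (by linarith))
    have e : (π ^ 2 / 4 - (π ^ 2 / 4 * I6 - I2) / (2 * I6)) * I6
      = π ^ 2 / 4 * I6 - (π ^ 2 / 4 * I6 - I2) / 2 := by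
      field_simp
    rw [e] at this
    linarith

end Pool.Agent.LiebT
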