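import Mathlib
import Pool.Agent.LiebT.Core

open Real Finset

set_option autoImplicit false

namespace Pool.Agent.LiebT

section
variable {H : Type*} [NormedAddCommGroup H] [InnerProductSpace ℂ H] [FiniteDimensional ℂ H]

/-- `M(x) = ε + ∫_a^x U U^*`. -/
noncomputable def Mop (ε a : ℝ) (U : ℝ → H) (x : ℝ) : H →L[ℂ] H :=
  (ε : ℂ) • ContinuousLinearMap.id ℂ H + ∫ y in a..x, InnerProductSpace.rankOne ℂ (U y) (U y)

theorem continuous_rankOne {U : ℝ → H} (hU : Continuous U) :
    Continuous (fun y => InnerProductSpace.rankOne ℂ (U y) (U y)) := by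
  have h : (fun y => InnerProductSpace.rankOne ℂ (U y) (U y)) =
      fun y => ContinuousLinearMap.smulRightL ℂ H H (innerSL ℂ (U y)) (U y) := by
    funext y
    rfl
  rw [h]
  exact ((ContinuousLinearMap.smulRightL ℂ H H).continuous.comp
    ((innerSL ℂ).continuous.comp hU)).clm_apply hU

theorem hasDerivAt_Mop {ε a : ℝ} {U : ℝ → H} (hU : Continuous U) (x : ℝ) :
    HasDerivAt (Mop ε a U) (InnerProductSpace.rankOne ℂ (U x) (U x)) x := by
  unfold Mop
  apply HasDerivAt.const_add
  have hc := continuous_rankOne hU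
  exact intervalIntegral.integral_hasDerivAt_right (hc.intervalIntegrable _ _)
    (hc.stronglyMeasurableAtFilter _ _) hc.continuousAt

theorem inner_Mop {ε a : ℝ} {U : ℝ → H} (hU : Continuous U) (x : ℝ) (v w : H) :
    inner ℂ v (Mop ε a U x w) = (ε : ℂ) * inner ℂ v w
      + ∫ y in a..x, inner ℂ (U y) w * inner ℂ v (U y) := by
  unfold Mop
  have hc := continuous_rankOne hU
  rw [add_apply, inner_add_right]
  congr 1
  · change inner ℂ v ((ε : ℂ) • w) = _
    rw [inner_smul_right]
  · set L : (H →L[ℂ] H) →L[ℂ] ℂ := (innerSL ℂ v).comp (ContinuousLinearMap.apply ℂ H w) with hL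
    have h1 : inner ℂ v ((∫ y in a..x, InnerProductSpace.rankOne ℂ (U y) (U y)) w)
        = L (∫ y in a..x, InnerProductSpace.rankOne ℂ (U y) (U y)) := by
      rw [hL]; rfl
    rw [h1, ← ContinuousLinearMap.intervalIntegral_comp_comm L (hc.intervalIntegrable _ _)]
    apply intervalIntegral.integral_congr
    intro y _
    rw [hL]
    simp [InnerProductSpace.rankOne_apply, inner_smul_right]

theorem isSymmetric_Mop {ε a : ℝ} {U : ℝ → H} (hU : Continuous U) (x : ℝ) :
    ((Mop ε a U x : H →ₗ[ℂ] H)).IsSymmetric := by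
  intro v w
  change inner ℂ (Mop ε a U x v) w = inner ℂ v (Mop ε a U x w)
  rw [← inner_conj_symm, inner_Mop hU, inner_Mop hU, map_add, map_mul, Complex.conj_ofReal,
    inner_conj_symm]
  congr 1
  have hint : IntervalIntegrable (fun y => inner ℂ (U y) v * inner ℂ w (U y))
      MeasureTheory.volume a x := by
    apply Continuous.intervalIntegrable
    fun_prop
  have h1 : (starRingEnd ℂ) (∫ y in a..x, inner ℂ (U y) v * inner ℂ w (U y))
      = Complex.conjCLE.toContinuousLinearMap (∫ y in a..x, inner ℂ (U y) v * inner ℂ w (U y)) := rfl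
  rw [h1, ← ContinuousLinearMap.intervalIntegral_comp_comm _ hint]
  apply intervalIntegral.integral_congr
  intro y _
  change (starRingEnd ℂ) (inner ℂ (U y) v * inner ℂ w (U y)) = _
  rw [map_mul, inner_conj_symm, inner_conj_symm, mul_comm]

theorem re_inner_Mop {ε a : ℝ} {U : ℝ → H} (hU : Continuous U) (x : ℝ) (v : H) :
    (inner ℂ v (Mop ε a U x v)).re = ε * ‖v‖ ^ 2 + ∫ y in a..x, ‖inner ℂ (U y) v‖ ^ 2 := by
  rw [inner_Mop hU, Complex.add_re]
  congr 1
  · rw [Complex.re_ofReal_mul]
    congr 1
    exact inner_self_eq_norm_sq (𝕜 := ℂ) v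
  · have hint : IntervalIntegrable (fun y => inner ℂ (U y) v * inner ℂ v (U y))
        MeasureTheory.volume a x := by
      apply Continuous.intervalIntegrable
      fun_prop
    have h1 : (∫ y in a..x, inner ℂ (U y) v * inner ℂ v (U y)).re
        = Complex.reCLM (∫ y in a..x, inner ℂ (U y) v * inner ℂ v (U y)) := rfl
    rw [h1, ← ContinuousLinearMap.intervalIntegral_comp_comm _ hint]
    apply intervalIntegral.integral_congr
    intro y _
    simp only [Complex.reCLM_apply]
    rw [← inner_conj_symm v (U y), Complex.mul_conj, Complex.ofReal_re, Complex.normSq_eq_norm_sq]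

end

end Pool.Agent.LiebT
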