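import Mathlib
import Pool.Agent.LiebT.Ortho

open Real Finset MeasureTheory

set_option autoImplicit false

namespace Pool.Agent.LiebT

/-- limit lemma -/
theorem le_of_forall_eps {A B : ℝ} (hA : 0 ≤ A)
    (h : ∀ ε : ℝ, 0 < ε → ε < 1 / 2 → (1 - 2 * ε) ^ 2 * A ≤ B) : A ≤ B := by
  by_contra hcon
  push Not at hcon
  have hApos : 0 < A := by
    rcases hA.eq_or_lt with h0 | h0
    · exfalso
      have := h (1 / 4) (by norm_num) (by norm_num)
      rw [← h0] at this hcon
      linarith
    · exact h0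
  have hB : 0 ≤ B := le_trans (by positivity) (h (1 / 4) (by norm_num) (by norm_num))
  set ε : ℝ := (A - B) / (8 * A) with hε
  have h1 : 0 < ε := div_pos (by linarith) (by linarith)
  have h2 : ε ≤ 1 / 8 := by
    rw [hε, div_le_iff₀ (by linarith)]; linarith
  have h3 := h ε h1 (by linarith)
  have h4 : (1 - 4 * ε) * A ≤ (1 - 2 * ε) ^ 2 * A := by
    apply mul_le_mul_of_nonneg_right _ hA
    nlinarith [sq_nonneg ε]
  have h5 : (1 - 4 * ε) * A = A - (A - B) / 2 := by
    rw [hε]; field_simp
    ring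
  linarith

theorem lt_line {N : ℕ} (u : Fin N → ℝ → ℂ) (hu : ∀ n, ContDiff ℝ 1 (u n))
    (hc : ∀ n, HasCompactSupport (u n))
    (ho : ∀ n m, ∫ x, star (u n x) * u m x = if n = m then (1 : ℂ) else 0) :
    π ^ 2 / 4 * ∫ x, (∑ n, ‖u n x‖ ^ 2) ^ 3 ≤ ∫ x, ∑ n, ‖deriv (u n) x‖ ^ 2 := by
  classical
  -- common support
  obtain ⟨R, hR0, hR⟩ : ∃ R : ℝ, 0 < R ∧ ∀ n x, x ∉ Set.Ioo (-R) R → u n x = 0 ∧ deriv (u n) x = 0 := by
    have hK : IsCompact (⋃ n, tsupport (u n)) := isCompact_iUnion fun n => hc n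
    obtain ⟨R, hR⟩ := hK.isBounded.subset_closedBall 0
    refine ⟨|R| + 1, by positivity, ?_⟩
    intro n x hx
    have hx' : x ∉ tsupport (u n) := by
      intro hmem
      have := hR (Set.mem_iUnion.mpr ⟨n, hmem⟩)
      rw [mem_closedBall_zero_iff, Real.norm_eq_abs] at this
      apply hx
      have h2 : |x| < |R| + 1 := by linarith [le_abs_self R]
      exact abs_lt.mp h2
    constructor
    · exact image_eq_zero_of_notMem_tsupport hx'
    · have h3 : x ∉ tsupport (deriv (u n)) := fun hm => hx' (tsupport_deriv_subset hm)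
      exact image_eq_zero_of_notMem_tsupport h3
  set U0 : ℝ → EuclideanSpace ℂ (Fin N) := fun x => WithLp.toLp 2 (fun n => u n x) with hU0
  set U0' : ℝ → EuclideanSpace ℂ (Fin N) := fun x => WithLp.toLp 2 (fun n => deriv (u n) x) with hU0'
  have hd0 : ∀ x, HasDerivAt U0 (U0' x) x := by
    intro x
    have h1 : HasDerivAt (fun x => (fun n => u n x)) (fun n => deriv (u n) x) x := by
      rw [hasDerivAt_pi]
      intro n
      exact ((hu n).differentiable one_ne_zero x).hasDerivAt
    exact ((PiLp.continuousLinearEquiv 2 ℝ (fun _ : Fin N => ℂ)).symm.toContinuousLinearMap.hasFDerivAt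
      ).comp_hasDerivAt x h1
  have hc0' : Continuous U0' := by
    apply (PiLp.continuousLinearEquiv 2 ℝ (fun _ : Fin N => ℂ)).symm.continuous.comp
    exact continuous_pi fun n => (hu n).continuous_deriv le_rfl
  have hc0 : Continuous U0 := continuous_iff_continuousAt.mpr fun x => (hd0 x).continuousAt
  have hnorm0 : ∀ x, ‖U0 x‖ ^ 2 = ∑ n, ‖u n x‖ ^ 2 := by
    intro x
    rw [EuclideanSpace.norm_sq_eq]
  have hnorm0' : ∀ x, ‖U0' x‖ ^ 2 = ∑ n, ‖deriv (u n) x‖ ^ 2 := by
    intro x
    rw [EuclideanSpace.norm_sq_eq]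
  -- integrals over the interval
  have hout : ∀ x, x ∉ Set.Ioo (-R) R → U0 x = 0 := by
    intro x hx
    ext n
    simp [hU0, (hR n x hx).1]
  have hI6 : ∫ x, (∑ n, ‖u n x‖ ^ 2) ^ 3 = ∫ x in (-R)..R, ‖U0 x‖ ^ 6 := by
    rw [intervalIntegral.integral_eq_integral_of_support_subset]
    · congr 1
      funext x
      rw [← hnorm0]
      ring
    · intro x hx
      by_contra hcon
      apply hx
      have : x ∉ Set.Ioo (-R) R := fun h => hcon (Set.Ioo_subset_Ioc_self h)
      simp [hout x this]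
  have hI2 : ∫ x, ∑ n, ‖deriv (u n) x‖ ^ 2 = ∫ x in (-R)..R, ‖U0' x‖ ^ 2 := by
    rw [intervalIntegral.integral_eq_integral_of_support_subset]
    · congr 1
      funext x
      rw [hnorm0']
    · intro x hx
      by_contra hcon
      apply hx
      have : x ∉ Set.Ioo (-R) R := fun h => hcon (Set.Ioo_subset_Ioc_self h)
      show ‖U0' x‖ ^ 2 = 0
      rw [hnorm0']
      apply Finset.sum_eq_zero
      intro n _
      rw [(hR n x this).2]
      simp
  -- completeness of the density matrix
  have hfull : ∀ v : EuclideanSpace ℂ (Fin N), ∫ y in (-R)..R, ‖inner ℂ (U0 y) v‖ ^ 2 = ‖v‖ ^ 2 := by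
    intro v
    rw [intervalIntegral.integral_eq_integral_of_support_subset]
    · have hexp : ∀ y, ((‖inner ℂ (U0 y) v‖ ^ 2 : ℝ) : ℂ)
          = ∑ n, ∑ m, (v n * (starRingEnd ℂ) (v m)) * (star (u n y) * u m y) := by
        intro y
        rw [← Complex.normSq_eq_norm_sq, ← Complex.mul_conj, PiLp.inner_apply, map_sum,
          Finset.sum_mul_sum]
        apply Finset.sum_congr rfl
        intro n _
        apply Finset.sum_congr rfl
        intro m _
        simp only [RCLike.inner_apply, map_mul, hU0, RCLike.star_def, Complex.conj_conj]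
        ring
      have hint : ∀ n m, Integrable (fun y => star (u n y) * u m y) := by
        intro n m
        apply Continuous.integrable_of_hasCompactSupport
        · exact ((hu n).continuous.star).mul (hu m).continuous
        · exact (hc m).mul_left
      have h1 : ((∫ y, ‖inner ℂ (U0 y) v‖ ^ 2 : ℝ) : ℂ) = ((‖v‖ ^ 2 : ℝ) : ℂ) := by
        rw [← integral_complex_ofReal]
        simp only [hexp]
        rw [integral_finsetSum _ (fun n _ => integrable_finsetSum _
          (fun m _ => (hint n m).const_mul _))]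
        have : ∀ n, ∫ y, ∑ m, (v n * (starRingEnd ℂ) (v m)) * (star (u n y) * u m y)
            = ((‖v n‖ ^ 2 : ℝ) : ℂ) := by
          intro n
          rw [integral_finsetSum _ (fun m _ => (hint n m).const_mul _)]
          simp only [integral_const_mul, ho]
          rw [Finset.sum_eq_single n]
          · rw [if_pos rfl, mul_one, Complex.mul_conj, Complex.normSq_eq_norm_sq]
          · intro m _ hm
            rw [if_neg (Ne.symm hm), mul_zero]
          · intro hn
            exact absurd (Finset.mem_univ n) hn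
        simp only [this]
        rw [EuclideanSpace.norm_sq_eq]
        push_cast
        rfl
      exact_mod_cast h1
    · intro x hx
      by_contra hcon
      apply hx
      have : x ∉ Set.Ioo (-R) R := fun h => hcon (Set.Ioo_subset_Ioc_self h)
      simp [hout x this]
  rw [hI6, hI2]
  have hI60 : 0 ≤ ∫ x in (-R)..R, ‖U0 x‖ ^ 6 :=
    intervalIntegral.integral_nonneg (by linarith) fun x _ => by positivity
  apply le_of_forall_eps (by positivity)
  intro ε hε hε2
  set c : ℝ := Real.sqrt (1 - 2 * ε) with hcdef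
  have hc2 : c ^ 2 = 1 - 2 * ε := Real.sq_sqrt (by linarith)
  have hcpos : 0 < c := Real.sqrt_pos.mpr (by linarith)
  set U : ℝ → EuclideanSpace ℂ (Fin N) := fun x => c • U0 x with hUdef
  have hUc : Continuous U := hc0.const_smul c
  have hUd : ∀ x, HasDerivAt U (c • U0' x) x := fun x => (hd0 x).const_smul c
  have hU'c : Continuous (fun x => c • U0' x) := hc0'.const_smul c
  have hip : ∀ y (v : EuclideanSpace ℂ (Fin N)), ‖inner ℂ (U y) v‖ ^ 2
      = (1 - 2 * ε) * ‖inner ℂ (U0 y) v‖ ^ 2 := by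
    intro y v
    have : inner ℂ (U y) v = (c : ℂ) * inner ℂ (U0 y) v := by
      rw [hUdef]
      simp only
      rw [show c • U0 y = (c : ℂ) • U0 y from (Complex.coe_smul c (U0 y)).symm, inner_smul_left,
        Complex.conj_ofReal]
    rw [this, norm_mul, mul_pow, Complex.norm_real, Real.norm_eq_abs, sq_abs, hc2]
  have hcore := core (a := -R) (b := R) (ε := ε) (by linarith) hε hε2 (U := U)
    (U' := fun x => c • U0' x) (M := Mop ε (-R) U) hUd hU'c (hasDerivAt_Mop hUc)
    (isSymmetric_Mop hUc) ?_ ?_ ?_ ?_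
  · have e1 : ∫ x in (-R)..R, ‖U x‖ ^ 6 = (1 - 2 * ε) ^ 3 * ∫ x in (-R)..R, ‖U0 x‖ ^ 6 := by
      rw [← intervalIntegral.integral_const_mul]
      apply intervalIntegral.integral_congr
      intro x _
      simp only [hUdef, norm_smul, Real.norm_eq_abs]
      rw [mul_pow, ← hc2, abs_of_pos hcpos]
      ring
    have e2 : ∫ x in (-R)..R, ‖c • U0' x‖ ^ 2 = (1 - 2 * ε) * ∫ x in (-R)..R, ‖U0' x‖ ^ 2 := by
      rw [← intervalIntegral.integral_const_mul]
      apply intervalIntegral.integral_congr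
      intro x _
      simp only [norm_smul, Real.norm_eq_abs]
      rw [mul_pow, sq_abs, hc2]
    rw [e1, e2] at hcore
    have hp : 0 < 1 - 2 * ε := by linarith
    have : (1 - 2 * ε) * ((1 - 2 * ε) ^ 2 * (π ^ 2 / 4 * ∫ x in (-R)..R, ‖U0 x‖ ^ 6))
        ≤ (1 - 2 * ε) * ∫ x in (-R)..R, ‖U0' x‖ ^ 2 := by
      calc _ = π ^ 2 / 4 * ((1 - 2 * ε) ^ 3 * ∫ x in (-R)..R, ‖U0 x‖ ^ 6) := by ring
        _ ≤ _ := hcore
    exact le_of_mul_le_mul_left this hp
  · intro x hx v
    rw [re_inner_Mop hUc]
    have : 0 ≤ ∫ y in (-R)..x, ‖inner ℂ (U y) v‖ ^ 2 :=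
      intervalIntegral.integral_nonneg hx.1 fun y _ => by positivity
    linarith
  · intro x hx v
    rw [re_inner_Mop hUc]
    have hcont : Continuous (fun y => ‖inner ℂ (U y) v‖ ^ 2) := by fun_prop
    have h1 : ∫ y in (-R)..x, ‖inner ℂ (U y) v‖ ^ 2 ≤ ∫ y in (-R)..R, ‖inner ℂ (U y) v‖ ^ 2 := by
      apply intervalIntegral.integral_mono_interval le_rfl hx.1 hx.2
      · exact Filter.Eventually.of_forall fun y => by positivity
      · exact hcont.intervalIntegrable _ _
    have h2 : ∫ y in (-R)..R, ‖inner ℂ (U y) v‖ ^ 2 = (1 - 2 * ε) * ‖v‖ ^ 2 := by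
      simp only [hip]
      rw [intervalIntegral.integral_const_mul, hfull]
    rw [h2] at h1
    linarith
  · have : U0 (-R) = 0 := hout _ (by simp)
    simp [hUdef, this]
  · have : U0 R = 0 := hout _ (by simp)
    simp [hUdef, this]

end Pool.Agent.LiebT
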