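import Mathlib

open Real MeasureTheory Filter Topology

set_option autoImplicit false

namespace Pool.Agent.LiebT

/-- `1/√cosh` -/
noncomputable def sq (x : ℝ) : ℝ := 1 / √(cosh x)

theorem sq_pos (x : ℝ) : 0 < sq x := by
  unfold sq
  have := Real.cosh_pos x
  positivity

theorem sq_sq (x : ℝ) : sq x ^ 2 = 1 / cosh x := by
  unfold sq
  rw [div_pow, one_pow, Real.sq_sqrt (Real.cosh_pos x).le]

theorem sq_six (x : ℝ) : sq x ^ 6 = 1 / cosh x ^ 3 := by
  have : sq x ^ 6 = (sq x ^ 2) ^ 3 := by ring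
  rw [this, sq_sq, div_pow, one_pow]

theorem contDiff_sq : ContDiff ℝ 1 sq := by
  unfold sq
  apply ContDiff.div contDiff_const
  · apply ContDiff.sqrt
    · exact Real.contDiff_cosh
    · intro x; exact (Real.cosh_pos x).ne'
  · intro x
    have := Real.cosh_pos x
    positivity

theorem hasDerivAt_sq (x : ℝ) : HasDerivAt sq (-(1 / 2) * (sinh x / cosh x) * sq x) x := by
  have hc := Real.cosh_pos x
  have h1 : HasDerivAt (fun y => √(cosh y)) (sinh x / (2 * √(cosh x))) x :=
    (Real.hasDerivAt_cosh x).sqrt hc.ne'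
  have h2 : HasDerivAt (fun y => 1 / √(cosh y)) (-(sinh x / (2 * √(cosh x))) / √(cosh x) ^ 2) x := by
    have := h1.fun_inv (by positivity)
    simpa only [one_div] using this
  have e : -(1 / 2) * (sinh x / cosh x) * sq x = -(sinh x / (2 * √(cosh x))) / √(cosh x) ^ 2 := by
    unfold sq
    rw [Real.sq_sqrt hc.le]
    field_simp
  rw [e]
  exact h2

theorem deriv_sq (x : ℝ) : deriv sq x = -(1 / 2) * (sinh x / cosh x) * sq x :=
  (hasDerivAt_sq x).deriv

theorem abs_sinh_div_cosh_le (x : ℝ) : |sinh x / cosh x| ≤ 1 := by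
  have hc := Real.cosh_pos x
  rw [abs_div, abs_of_pos hc, div_le_one hc, abs_le]
  have h1 := Real.cosh_sq x
  constructor
  · nlinarith [Real.sinh_lt_cosh x, Real.sinh_lt_cosh (-x), Real.sinh_neg x, Real.cosh_neg x]
  · exact (Real.sinh_lt_cosh x).le

theorem deriv_sq_sq (x : ℝ) : deriv sq x ^ 2 = 1 / 4 * (1 / cosh x - 1 / cosh x ^ 3) := by
  have hc := Real.cosh_pos x
  have h1 := Real.cosh_sq x
  rw [deriv_sq, mul_pow, mul_pow, sq_sq, div_pow]
  have : sinh x ^ 2 = cosh x ^ 2 - 1 := by linarith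
  rw [this]
  field_simp
  ring

theorem cosh_ge (x : ℝ) : 1 + x ^ 2 / 2 ≤ cosh x := by
  have h1 : cosh x = 1 + 2 * sinh (x / 2) ^ 2 := by
    have := Real.cosh_two_mul (x / 2)
    have h2 := Real.cosh_sq (x / 2)
    rw [show 2 * (x / 2) = x by ring] at this
    rw [this, h2]
    ring
  have h3 : (x / 2) ^ 2 ≤ sinh (x / 2) ^ 2 := by
    rw [← sq_abs (x / 2), ← sq_abs (sinh (x / 2)), Real.abs_sinh]
    have : |x / 2| ≤ sinh |x / 2| := Real.self_le_sinh_iff.mpr (abs_nonneg _)
    have h0 := abs_nonneg (x / 2)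
    nlinarith
  rw [h1]
  nlinarith

theorem integrable_sech : Integrable (fun x : ℝ => 1 / cosh x) := by
  have h := integrable_inv_one_add_sq.const_mul 2
  refine h.mono' ?_ ?_
  · exact (Continuous.div continuous_const Real.continuous_cosh
      (fun x => (Real.cosh_pos x).ne')).aestronglyMeasurable
  · refine Filter.Eventually.of_forall fun x => ?_
    have hc := Real.cosh_pos x
    have h1 : 1 + x ^ 2 / 2 ≤ cosh x := cosh_ge x
    rw [Real.norm_eq_abs, abs_of_pos (by positivity), ← div_eq_mul_inv,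
      div_le_div_iff₀ hc (by positivity)]
    nlinarith [sq_nonneg x]

theorem integrable_sech3 : Integrable (fun x : ℝ => 1 / cosh x ^ 3) := by
  refine integrable_sech.mono' ?_ ?_
  · exact (Continuous.div continuous_const (Real.continuous_cosh.pow 3)
      (fun x => (pow_pos (Real.cosh_pos x) 3).ne')).aestronglyMeasurable
  · refine Filter.Eventually.of_forall fun x => ?_
    have hc := Real.cosh_pos x
    have h1 := Real.one_le_cosh x
    rw [Real.norm_eq_abs, abs_of_pos (by positivity)]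
    apply one_div_le_one_div_of_le hc
    calc cosh x = cosh x ^ 1 := (pow_one _).symm
      _ ≤ cosh x ^ 3 := pow_le_pow_right₀ h1 (by norm_num)

theorem hasDerivAt_arctan_sinh (x : ℝ) : HasDerivAt (fun x => arctan (sinh x)) (1 / cosh x) x := by
  have h := (Real.hasDerivAt_sinh x).arctan
  have hc := Real.cosh_pos x
  have h1 := Real.cosh_sq x
  have e : 1 / cosh x = 1 / (1 + sinh x ^ 2) * cosh x := by
    rw [show 1 + sinh x ^ 2 = cosh x ^ 2 by linarith]
    field_simp
  rw [e]
  exact h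

theorem tendsto_sinh_atTop' : Tendsto sinh atTop atTop := by
  refine tendsto_atTop_mono' atTop ?_ tendsto_id
  filter_upwards [eventually_ge_atTop 0] with x hx
  exact Real.self_le_sinh_iff.mpr hx

theorem tendsto_sinh_atBot' : Tendsto sinh atBot atBot := by
  have h : sinh = fun x => -(sinh (-x)) := by
    funext x; rw [Real.sinh_neg, neg_neg]
  rw [h]
  exact tendsto_neg_atTop_atBot.comp (tendsto_sinh_atTop'.comp tendsto_neg_atBot_atTop)

theorem tendsto_arctan_sinh_atTop : Tendsto (fun x => arctan (sinh x)) atTop (𝓝 (π / 2)) :=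
  (Real.tendsto_arctan_atTop.mono_right nhdsWithin_le_nhds).comp tendsto_sinh_atTop'

theorem tendsto_arctan_sinh_atBot : Tendsto (fun x => arctan (sinh x)) atBot (𝓝 (-(π / 2))) :=
  (Real.tendsto_arctan_atBot.mono_right nhdsWithin_le_nhds).comp tendsto_sinh_atBot'

theorem integral_sech : ∫ x : ℝ, 1 / cosh x = π := by
  rw [integral_of_hasDerivAt_of_tendsto hasDerivAt_arctan_sinh integrable_sech
    tendsto_arctan_sinh_atBot tendsto_arctan_sinh_atTop]
  ring

theorem hasDerivAt_A3 (x : ℝ) :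
    HasDerivAt (fun x => (1 / 2) * (sinh x / cosh x ^ 2 + arctan (sinh x))) (1 / cosh x ^ 3) x := by
  have hc := Real.cosh_pos x
  have h1 := Real.cosh_sq x
  have h := (((Real.hasDerivAt_sinh x).div ((Real.hasDerivAt_cosh x).pow 2) (pow_pos hc 2).ne').add
    (hasDerivAt_arctan_sinh x)).const_mul (1 / 2)
  refine h.congr_deriv ?_
  have : sinh x ^ 2 = cosh x ^ 2 - 1 := by linarith
  simp only [Pi.pow_apply]
  field_simp
  ring_nf
  rw [this]
  ring

theorem tendsto_one_div_cosh (l : Filter ℝ) (hl : Tendsto (fun x => |x|) l atTop) :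
    Tendsto (fun x => 1 / cosh x) l (𝓝 0) := by
  simp only [one_div]
  apply Tendsto.inv_tendsto_atTop
  have : Tendsto (fun x : ℝ => |x|) l atTop := hl
  refine tendsto_atTop_mono (fun x => ?_) this
  have := cosh_ge x
  nlinarith [sq_nonneg (|x| - 1), sq_abs x]

theorem tendsto_sinh_div (l : Filter ℝ) (hl : Tendsto (fun x => |x|) l atTop) :
    Tendsto (fun x => sinh x / cosh x ^ 2) l (𝓝 0) := by
  apply squeeze_zero_norm (a := fun x => 1 / cosh x) _ (tendsto_one_div_cosh l hl)
  intro x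
  have hc := Real.cosh_pos x
  have h1 := abs_sinh_div_cosh_le x
  rw [Real.norm_eq_abs]
  have : sinh x / cosh x ^ 2 = (sinh x / cosh x) * (1 / cosh x) := by field_simp
  rw [this, abs_mul, abs_of_pos (show 0 < 1 / cosh x by positivity)]
  have h2 : 0 < 1 / cosh x := by positivity
  nlinarith

theorem integral_sech3 : ∫ x : ℝ, 1 / cosh x ^ 3 = π / 2 := by
  have t1 : Tendsto (fun x => (1 / 2) * (sinh x / cosh x ^ 2 + arctan (sinh x))) atBot
      (𝓝 ((1 / 2) * (0 + -(π / 2)))) :=
    ((tendsto_sinh_div atBot tendsto_abs_atBot_atTop).add tendsto_arctan_sinh_atBot).const_mul _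
  have t2 : Tendsto (fun x => (1 / 2) * (sinh x / cosh x ^ 2 + arctan (sinh x))) atTop
      (𝓝 ((1 / 2) * (0 + (π / 2)))) :=
    ((tendsto_sinh_div atTop tendsto_abs_atTop_atTop).add tendsto_arctan_sinh_atTop).const_mul _
  rw [integral_of_hasDerivAt_of_tendsto hasDerivAt_A3 integrable_sech3 t1 t2]
  ring

end Pool.Agent.LiebT
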