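import Mathlib
import Pool.Agent.LiebT.Sech

open Real MeasureTheory Filter Topology

set_option autoImplicit false

namespace Pool.Agent.LiebT

/-- cutoff -/
noncomputable def chi (k : ℕ) (x : ℝ) : ℝ :=
  smoothTransition (k + 1 - x) * smoothTransition (k + 1 + x)

/-- trial functions -/
noncomputable def trial (k : ℕ) (x : ℝ) : ℝ := chi k x * sq x

theorem contDiff_chi (k : ℕ) : ContDiff ℝ 1 (chi k) := by
  unfold chi
  have h : ContDiff ℝ 1 smoothTransition := smoothTransition.contDiff (n := 1)
  exact (h.comp (contDiff_const.sub contDiff_id)).mul (h.comp (contDiff_const.add contDiff_id))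

theorem chi_nonneg (k : ℕ) (x : ℝ) : 0 ≤ chi k x :=
  mul_nonneg (smoothTransition.nonneg _) (smoothTransition.nonneg _)

theorem chi_le_one (k : ℕ) (x : ℝ) : chi k x ≤ 1 :=
  mul_le_one₀ (smoothTransition.le_one _) (smoothTransition.nonneg _) (smoothTransition.le_one _)

theorem chi_eq_one {k : ℕ} {x : ℝ} (h : |x| ≤ k) : chi k x = 1 := by
  unfold chi
  have := abs_le.mp h
  rw [smoothTransition.one_of_one_le (by linarith), smoothTransition.one_of_one_le (by linarith),
    mul_one]

theorem chi_eq_zero {k : ℕ} {x : ℝ} (h : (k : ℝ) + 1 ≤ |x|) : chi k x = 0 := by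
  unfold chi
  rcases le_abs.mp h with h1 | h1
  · rw [smoothTransition.zero_of_nonpos (by linarith), zero_mul]
  · rw [smoothTransition.zero_of_nonpos (x := (k : ℝ) + 1 + x) (by linarith), mul_zero]

theorem exists_deriv_bound : ∃ C : ℝ, 0 ≤ C ∧ ∀ x, |deriv smoothTransition x| ≤ C := by
  have hcd : ContDiff ℝ 1 smoothTransition := smoothTransition.contDiff (n := 1)
  have hc : Continuous (deriv smoothTransition) := hcd.continuous_deriv le_rfl
  obtain ⟨C, hC⟩ := (isCompact_Icc (a := (0 : ℝ)) (b := 1)).exists_bound_of_continuousOn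
    hc.continuousOn
  have hC0 : 0 ≤ C := le_trans (norm_nonneg _) (hC 0 ⟨le_rfl, zero_le_one⟩)
  refine ⟨C, hC0, fun x => ?_⟩
  by_cases hx0 : x < 0
  · have : smoothTransition =ᶠ[𝓝 x] fun _ => 0 := by
      filter_upwards [Iio_mem_nhds hx0] with y hy
      exact smoothTransition.zero_of_nonpos (le_of_lt hy)
    rw [this.deriv_eq]
    simpa using hC0
  · by_cases hx1 : 1 < x
    · have : smoothTransition =ᶠ[𝓝 x] fun _ => 1 := by
        filter_upwards [Ioi_mem_nhds hx1] with y hy
        exact smoothTransition.one_of_one_le (le_of_lt hy)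
      rw [this.deriv_eq]
      simpa using hC0
    · exact hC x ⟨by linarith, by linarith⟩

theorem hasDerivAt_chi (k : ℕ) (x : ℝ) :
    HasDerivAt (chi k) (-(deriv smoothTransition (k + 1 - x)) * smoothTransition (k + 1 + x) +
      smoothTransition (k + 1 - x) * deriv smoothTransition (k + 1 + x)) x := by
  have hcd : ContDiff ℝ 1 smoothTransition := smoothTransition.contDiff (n := 1)
  have hd : ∀ y, HasDerivAt smoothTransition (deriv smoothTransition y) y := fun y =>
    (hcd.differentiable one_ne_zero y).hasDerivAt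
  have h1 : HasDerivAt (fun x : ℝ => smoothTransition (k + 1 - x))
      (-(deriv smoothTransition (k + 1 - x))) x := by
    have h0 : HasDerivAt (fun x : ℝ => (k : ℝ) + 1 - x) (-1) x := by
      simpa using (hasDerivAt_id x).const_sub ((k : ℝ) + 1)
    have := (hd (k + 1 - x)).comp x h0
    refine this.congr_deriv ?_
    ring
  have h2 : HasDerivAt (fun x : ℝ => smoothTransition (k + 1 + x))
      (deriv smoothTransition (k + 1 + x)) x := by
    have h0 : HasDerivAt (fun x : ℝ => (k : ℝ) + 1 + x) 1 x := by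
      simpa using (hasDerivAt_id x).const_add ((k : ℝ) + 1)
    have := (hd (k + 1 + x)).comp x h0
    refine this.congr_deriv ?_
    ring
  exact h1.mul h2

theorem abs_deriv_chi_le {C : ℝ} (hC0 : 0 ≤ C) (hC : ∀ x, |deriv smoothTransition x| ≤ C) (k : ℕ)
    (x : ℝ) : |deriv (chi k) x| ≤ 2 * C := by
  rw [(hasDerivAt_chi k x).deriv]
  refine (abs_add_le _ _).trans ?_
  rw [abs_mul, abs_mul, abs_neg, abs_of_nonneg (smoothTransition.nonneg ((k : ℝ) + 1 + x)),
    abs_of_nonneg (smoothTransition.nonneg ((k : ℝ) + 1 - x))]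
  have h1 := hC (k + 1 - x)
  have h2 := hC (k + 1 + x)
  have h3 := smoothTransition.le_one ((k : ℝ) + 1 + x)
  have h4 := smoothTransition.le_one ((k : ℝ) + 1 - x)
  have h5 := smoothTransition.nonneg ((k : ℝ) + 1 + x)
  have h6 := smoothTransition.nonneg ((k : ℝ) + 1 - x)
  have h7 := abs_nonneg (deriv smoothTransition (k + 1 - x))
  have h8 := abs_nonneg (deriv smoothTransition (k + 1 + x))
  nlinarith

theorem contDiff_trial (k : ℕ) : ContDiff ℝ 1 (trial k) :=
  (contDiff_chi k).mul contDiff_sq

theorem hasCompactSupport_trial (k : ℕ) : HasCompactSupport (trial k) := by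
  apply HasCompactSupport.intro (isCompact_closedBall (0 : ℝ) (k + 1))
  intro x hx
  rw [mem_closedBall_zero_iff, Real.norm_eq_abs, not_le] at hx
  unfold trial
  rw [chi_eq_zero hx.le, zero_mul]

theorem deriv_trial (k : ℕ) (x : ℝ) :
    deriv (trial k) x = deriv (chi k) x * sq x + chi k x * deriv sq x := by
  have h1 : DifferentiableAt ℝ (chi k) x := (contDiff_chi k).differentiable one_ne_zero x
  have h2 : DifferentiableAt ℝ sq x := contDiff_sq.differentiable one_ne_zero x
  exact deriv_fun_mul h1 h2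

theorem abs_trial_le (k : ℕ) (x : ℝ) : |trial k x| ≤ sq x := by
  unfold trial
  rw [abs_mul, abs_of_nonneg (chi_nonneg k x), abs_of_pos (sq_pos x)]
  have := chi_le_one k x
  nlinarith [sq_pos x]

theorem abs_deriv_sq_le (x : ℝ) : |deriv sq x| ≤ sq x := by
  rw [deriv_sq, abs_mul, abs_mul, abs_of_pos (sq_pos x)]
  have h1 := abs_sinh_div_cosh_le x
  have h2 : |(-(1 / 2) : ℝ)| = 1 / 2 := by rw [abs_neg, abs_of_pos (by norm_num)]
  rw [h2]
  have h3 := sq_pos x
  nlinarith [abs_nonneg (sinh x / cosh x)]

theorem abs_deriv_trial_le {C : ℝ} (hC0 : 0 ≤ C) (hC : ∀ x, |deriv smoothTransition x| ≤ C) (k : ℕ)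
    (x : ℝ) : |deriv (trial k) x| ≤ (2 * C + 1) * sq x := by
  rw [deriv_trial]
  refine (abs_add_le _ _).trans ?_
  rw [abs_mul, abs_mul, abs_of_nonneg (chi_nonneg k x), abs_of_pos (sq_pos x)]
  have h1 := abs_deriv_chi_le hC0 hC k x
  have h2 := chi_le_one k x
  have h3 := abs_deriv_sq_le x
  have h4 := sq_pos x
  have h5 := chi_nonneg k x
  have h6 := abs_nonneg (deriv sq x)
  nlinarith

theorem trial_eventually (x : ℝ) : ∀ᶠ k : ℕ in atTop, trial k x = sq x ∧
    deriv (trial k) x = deriv sq x := by
  obtain ⟨n, hn⟩ := exists_nat_gt |x|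
  filter_upwards [eventually_ge_atTop n] with k hk
  have hk' : |x| < k := lt_of_lt_of_le hn (by exact_mod_cast hk)
  have h1 : trial k =ᶠ[𝓝 x] sq := by
    have : {y : ℝ | |y| < k} ∈ 𝓝 x := (isOpen_lt continuous_abs continuous_const).mem_nhds hk'
    filter_upwards [this] with y hy
    unfold trial
    rw [chi_eq_one (le_of_lt hy), one_mul]
  exact ⟨h1.eq_of_nhds, h1.deriv_eq⟩

theorem tendsto_trial_two :
    Tendsto (fun k : ℕ => ∫ x, trial k x ^ 2) atTop (𝓝 π) := by
  rw [← integral_sech]
  apply tendsto_integral_of_dominated_convergence (fun x => 1 / cosh x)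
  · intro k
    exact ((contDiff_trial k).continuous.pow 2).aestronglyMeasurable
  · exact integrable_sech
  · intro k
    refine Eventually.of_forall fun x => ?_
    rw [Real.norm_eq_abs, abs_pow, ← sq_sq]
    exact pow_le_pow_left₀ (abs_nonneg _) (abs_trial_le k x) 2
  · refine Eventually.of_forall fun x => ?_
    rw [← sq_sq]
    refine tendsto_const_nhds.congr' ?_
    filter_upwards [trial_eventually x] with k hk
    rw [hk.1]

theorem tendsto_trial_six :
    Tendsto (fun k : ℕ => ∫ x, trial k x ^ 6) atTop (𝓝 (π / 2)) := by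
  rw [← integral_sech3]
  apply tendsto_integral_of_dominated_convergence (fun x => 1 / cosh x ^ 3)
  · intro k
    exact ((contDiff_trial k).continuous.pow 6).aestronglyMeasurable
  · exact integrable_sech3
  · intro k
    refine Eventually.of_forall fun x => ?_
    rw [Real.norm_eq_abs, abs_pow, ← sq_six]
    exact pow_le_pow_left₀ (abs_nonneg _) (abs_trial_le k x) 6
  · refine Eventually.of_forall fun x => ?_
    rw [← sq_six]
    refine tendsto_const_nhds.congr' ?_
    filter_upwards [trial_eventually x] with k hk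
    rw [hk.1]

theorem tendsto_trial_deriv :
    Tendsto (fun k : ℕ => ∫ x, deriv (trial k) x ^ 2) atTop (𝓝 (π / 8)) := by
  have hval : ∫ x, deriv sq x ^ 2 = π / 8 := by
    simp only [deriv_sq_sq]
    rw [integral_const_mul, integral_sub integrable_sech integrable_sech3, integral_sech,
      integral_sech3]
    ring
  rw [← hval]
  obtain ⟨C, hC0, hC⟩ := exists_deriv_bound
  apply tendsto_integral_of_dominated_convergence (fun x => (2 * C + 1) ^ 2 * (1 / cosh x))
  · intro k
    exact (((contDiff_trial k).continuous_deriv le_rfl).pow 2).aestronglyMeasurable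
  · exact integrable_sech.const_mul _
  · intro k
    refine Eventually.of_forall fun x => ?_
    rw [Real.norm_eq_abs, abs_pow, ← sq_sq, ← mul_pow]
    exact pow_le_pow_left₀ (abs_nonneg _) (abs_deriv_trial_le hC0 hC k x) 2
  · refine Eventually.of_forall fun x => ?_
    refine tendsto_const_nhds.congr' ?_
    filter_upwards [trial_eventually x] with k hk
    rw [hk.2]

theorem tendsto_ratio :
    Tendsto (fun k : ℕ => (∫ x, deriv (trial k) x ^ 2) * (∫ x, trial k x ^ 2) ^ 2 /
      ∫ x, trial k x ^ 6) atTop (𝓝 (π ^ 2 / 4)) := by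
  have h := (tendsto_trial_deriv.mul (tendsto_trial_two.pow 2)).div tendsto_trial_six
    (by positivity)
  have e : π / 8 * π ^ 2 / (π / 2) = π ^ 2 / 4 := by
    have := Real.pi_pos
    field_simp
    ring
  rw [e] at h
  exact h

end Pool.Agent.LiebT
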