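import Mathlib
import Pool.Agent.LiebT.Line
import Pool.Agent.LiebT.Trial

open Real MeasureTheory Filter Topology

set_option autoImplicit false

namespace Pool.Agent.LiebT

/-- the isometry of the line with one-dimensional Euclidean space -/
noncomputable def eL : ℝ ≃ₗᵢ[ℝ] EuclideanSpace ℝ (Fin 1) :=
  (OrthonormalBasis.singleton (Fin 1) ℝ).repr

theorem eL_one : eL 1 = EuclideanSpace.single (0 : Fin 1) (1 : ℝ) := by
  have h := (OrthonormalBasis.singleton (Fin 1) ℝ).repr_self 0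
  rw [OrthonormalBasis.singleton_apply] at h
  exact h

theorem integral_eL {E : Type*} [NormedAddCommGroup E] [NormedSpace ℝ E]
    (g : EuclideanSpace ℝ (Fin 1) → E) : ∫ x, g x = ∫ t, g (eL t) := by
  exact (eL.measurePreserving.integral_comp eL.toHomeomorph.measurableEmbedding g).symm

theorem contDiff_comp_eL {u : EuclideanSpace ℝ (Fin 1) → ℂ} (hu : ContDiff ℝ 1 u) :
    ContDiff ℝ 1 (fun t => u (eL t)) :=
  hu.comp eL.toContinuousLinearEquiv.contDiff

theorem hasCompactSupport_comp_eL {u : EuclideanSpace ℝ (Fin 1) → ℂ} (hu : HasCompactSupport u) :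
    HasCompactSupport (fun t => u (eL t)) :=
  hu.comp_homeomorph eL.toHomeomorph

theorem deriv_comp_eL {u : EuclideanSpace ℝ (Fin 1) → ℂ} (hu : ContDiff ℝ 1 u) (t : ℝ) :
    deriv (fun t => u (eL t)) t = fderiv ℝ u (eL t) (EuclideanSpace.single (0 : Fin 1) (1 : ℝ)) := by
  have h1 : HasFDerivAt u (fderiv ℝ u (eL t)) (eL t) :=
    (hu.differentiable one_ne_zero (eL t)).hasFDerivAt
  have h2 : HasDerivAt (fun t => eL t) (eL 1) t := by
    have := (eL.toContinuousLinearEquiv.toContinuousLinearMap.hasFDerivAt (x := t)).hasDerivAt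
    exact this
  have h3 := (h1.comp_hasDerivAt t h2).deriv
  rw [eL_one] at h3
  exact h3

theorem sum_fderiv_eq {u : EuclideanSpace ℝ (Fin 1) → ℂ} (hu : ContDiff ℝ 1 u) (t : ℝ) :
    ∑ i : Fin 1, ‖fderiv ℝ u (eL t) (EuclideanSpace.single i (1 : ℝ))‖ ^ 2
      = ‖deriv (fun t => u (eL t)) t‖ ^ 2 := by
  rw [deriv_comp_eL hu, Fin.sum_univ_one]

/-- one-function set on the line -/
theorem one_fun {v : ℝ → ℂ} (hv : ContDiff ℝ 1 v) (hc : HasCompactSupport v) (h0 : v ≠ 0) :
    0 < ∫ t, ‖v t‖ ^ 2 := by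
  have hcont : Continuous (fun t => ‖v t‖ ^ 2) := (hv.continuous.norm).pow 2
  obtain ⟨t0, ht0⟩ : ∃ t, v t ≠ 0 := by
    by_contra hcon
    push Not at hcon
    exact h0 (funext hcon)
  apply hcont.integral_pos_of_hasCompactSupport_nonneg_nonzero
  · apply HasCompactSupport.intro hc
    intro x hx
    rw [image_eq_zero_of_notMem_tsupport hx]
    simp
  · intro t; positivity
  · show ‖v t0‖ ^ 2 ≠ 0
    have := norm_pos_iff.mpr ht0
    positivity

end Pool.Agent.LiebT
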