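import Mathlib
import Pool.Agent.LiebT.Transfer

open Real MeasureTheory Filter Topology

set_option autoImplicit false

namespace Pool.Agent.LiebT

/-- the set of quotients for orthonormal families, `d = 1` -/
def setA : Set ℝ := {K : ℝ | ∃ N : ℕ, ∃ u : Fin N → EuclideanSpace ℝ (Fin 1) → ℂ,
          0 < N ∧
          (∀ n, ContDiff ℝ 1 (u n) ∧ HasCompactSupport (u n)) ∧
          (∀ n m, ∫ x, star (u n x) * u m x = if n = m then (1 : ℂ) else 0) ∧
          K = (∑ n, ∫ x, ∑ i : Fin 1, ‖fderiv ℝ (u n) x (EuclideanSpace.single i (1 : ℝ))‖ ^ 2)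
              / ∫ x, (∑ n, ‖u n x‖ ^ 2) ^ (1 + 2 / ((1 : ℕ) : ℝ))}

/-- the set of one-function quotients, `d = 1` -/
def setB : Set ℝ := {K : ℝ | ∃ u : EuclideanSpace ℝ (Fin 1) → ℂ,
              ContDiff ℝ 1 u ∧ HasCompactSupport u ∧ u ≠ 0 ∧
              K = (∫ x, ∑ i : Fin 1, ‖fderiv ℝ u x (EuclideanSpace.single i (1 : ℝ))‖ ^ 2)
                  * (∫ x, ‖u x‖ ^ 2) ^ (2 / ((1 : ℕ) : ℝ))
                  / ∫ x, ‖u x‖ ^ (2 + 4 / ((1 : ℕ) : ℝ))}

theorem rpow3 (y : ℝ) : y ^ (1 + 2 / ((1 : ℕ) : ℝ)) = y ^ 3 := by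
  have : (1 + 2 / ((1 : ℕ) : ℝ)) = ((3 : ℕ) : ℝ) := by norm_num
  rw [this, Real.rpow_natCast]

theorem rpow2 (y : ℝ) : y ^ (2 / ((1 : ℕ) : ℝ)) = y ^ 2 := by
  have : (2 / ((1 : ℕ) : ℝ)) = ((2 : ℕ) : ℝ) := by norm_num
  rw [this, Real.rpow_natCast]

theorem rpow6 (y : ℝ) : y ^ (2 + 4 / ((1 : ℕ) : ℝ)) = y ^ 6 := by
  have : (2 + 4 / ((1 : ℕ) : ℝ)) = ((6 : ℕ) : ℝ) := by norm_num
  rw [this, Real.rpow_natCast]

theorem setA_ge {K : ℝ} (hK : K ∈ setA) : π ^ 2 / 4 ≤ K := by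
  obtain ⟨N, u, hN, hu, ho, rfl⟩ := hK
  simp only [rpow3]
  set v : Fin N → ℝ → ℂ := fun n t => u n (eL t) with hv
  have hvc : ∀ n, ContDiff ℝ 1 (v n) := fun n => contDiff_comp_eL (hu n).1
  have hvs : ∀ n, HasCompactSupport (v n) := fun n => hasCompactSupport_comp_eL (hu n).2
  have hvo : ∀ n m, ∫ t, star (v n t) * v m t = if n = m then (1 : ℂ) else 0 := by
    intro n m
    rw [← ho n m, integral_eL]
  have hmain := lt_line v hvc hvs hvo
  have e1 : ∫ x, (∑ n, ‖u n x‖ ^ 2) ^ 3 = ∫ t, (∑ n, ‖v n t‖ ^ 2) ^ 3 := by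
    rw [integral_eL]
  have e2 : ∑ n, ∫ x, ∑ i : Fin 1, ‖fderiv ℝ (u n) x (EuclideanSpace.single i (1 : ℝ))‖ ^ 2
      = ∫ t, ∑ n, ‖deriv (v n) t‖ ^ 2 := by
    rw [integral_finsetSum]
    · apply Finset.sum_congr rfl
      intro n _
      rw [integral_eL]
      congr 1
      funext t
      exact sum_fderiv_eq (hu n).1 t
    · intro n _
      apply Continuous.integrable_of_hasCompactSupport
      · exact (((hvc n).continuous_deriv le_rfl).norm).pow 2
      · apply HasCompactSupport.intro (hvs n).deriv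
        intro x hx
        rw [image_eq_zero_of_notMem_tsupport hx]
        simp
  rw [e1, e2]
  have hpos : 0 < ∫ t, (∑ n, ‖v n t‖ ^ 2) ^ 3 := by
    have n0 : Fin N := ⟨0, hN⟩
    have hne : v n0 ≠ 0 := by
      intro h0
      have h1 := hvo n0 n0
      rw [if_pos rfl, h0] at h1
      simp at h1
    obtain ⟨t0, ht0⟩ : ∃ t, v n0 t ≠ 0 := by
      by_contra hcon
      push Not at hcon
      exact hne (funext hcon)
    have hcont : Continuous (fun t => (∑ n, ‖v n t‖ ^ 2) ^ 3) :=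
      (continuous_finsetSum _ fun n _ => ((hvc n).continuous.norm).pow 2).pow 3
    apply hcont.integral_pos_of_hasCompactSupport_nonneg_nonzero (x := t0)
    · have hK : IsCompact (⋃ n, tsupport (v n)) := isCompact_iUnion fun n => hvs n
      apply HasCompactSupport.intro hK
      intro x hx
      have : ∀ n, v n x = 0 := fun n =>
        image_eq_zero_of_notMem_tsupport fun hm => hx (Set.mem_iUnion.mpr ⟨n, hm⟩)
      simp [this]
    · intro t; positivity
    · have h1 : 0 < ∑ n, ‖v n t0‖ ^ 2 := by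
        apply Finset.sum_pos' (fun n _ => by positivity)
        exact ⟨n0, Finset.mem_univ _, by have := norm_pos_iff.mpr ht0; positivity⟩
      positivity
  rw [le_div_iff₀ hpos]
  exact hmain

theorem setB_subset : setB ⊆ setA := by
  rintro K ⟨u, hu, hc, h0, rfl⟩
  simp only [rpow2, rpow6]
  have hv0 : (fun t => u (eL t)) ≠ 0 := by
    intro h
    apply h0
    funext x
    have := congrFun h (eL.symm x)
    simpa using this
  have hpos : 0 < ∫ x, ‖u x‖ ^ 2 := by
    rw [integral_eL]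
    exact one_fun (contDiff_comp_eL hu) (hasCompactSupport_comp_eL hc) hv0
  set m := ∫ x, ‖u x‖ ^ 2 with hm
  set c : ℝ := 1 / √m with hcdef
  have hc2 : c ^ 2 = 1 / m := by rw [hcdef, div_pow, one_pow, Real.sq_sqrt hpos.le]
  have hcpos : 0 < c := by rw [hcdef]; positivity
  refine ⟨1, fun _ x => (c : ℂ) * u x, one_pos, ?_, ?_, ?_⟩
  · intro n
    exact ⟨contDiff_const.mul hu, hc.mul_left⟩
  · intro n k
    rw [if_pos (Subsingleton.elim n k)]
    have : ∀ x, star ((c : ℂ) * u x) * ((c : ℂ) * u x) = ((c ^ 2 * ‖u x‖ ^ 2 : ℝ) : ℂ) := by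
      intro x
      have h1 : star ((c : ℂ) * u x) * ((c : ℂ) * u x)
        = ((‖(c : ℂ) * u x‖ ^ 2 : ℝ) : ℂ) := by
        rw [RCLike.star_def, mul_comm, Complex.mul_conj, Complex.normSq_eq_norm_sq]
      rw [h1, norm_mul, mul_pow, Complex.norm_real, Real.norm_eq_abs, sq_abs]
    simp only [this]
    rw [integral_complex_ofReal, integral_const_mul, ← hm, hc2]
    have : 1 / m * m = 1 := by field_simp
    rw [this]
    simp
  · simp only [rpow3, Finset.univ_unique, Fin.default_eq_zero, Finset.sum_singleton]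
    have hd : ∀ x, fderiv ℝ (fun x => (c : ℂ) * u x) x = (c : ℂ) • fderiv ℝ u x := by
      intro x
      exact fderiv_const_mul (hu.differentiable one_ne_zero x) (c : ℂ)
    have e1 : ∫ x, ‖fderiv ℝ (fun x => (c : ℂ) * u x) x (EuclideanSpace.single (0 : Fin 1) 1)‖ ^ 2
        = c ^ 2 * ∫ x, ‖fderiv ℝ u x (EuclideanSpace.single (0 : Fin 1) 1)‖ ^ 2 := by
      rw [← integral_const_mul]
      congr 1
      funext x
      rw [hd x]
      change ‖(c : ℂ) • (fderiv ℝ u x (EuclideanSpace.single (0 : Fin 1) 1))‖ ^ 2 = _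
      rw [norm_smul, mul_pow, Complex.norm_real, Real.norm_eq_abs, sq_abs]
    have e2 : ∫ x, (‖(c : ℂ) * u x‖ ^ 2) ^ 3 = c ^ 6 * ∫ x, ‖u x‖ ^ 6 := by
      rw [← integral_const_mul]
      congr 1
      funext x
      rw [norm_mul, mul_pow, Complex.norm_real, Real.norm_eq_abs, sq_abs]
      ring
    rw [e1, e2]
    have h6 : c ^ 6 = c ^ 2 * (1 / m) ^ 2 := by rw [← hc2]; ring
    rw [h6]
    have hm0 : m ≠ 0 := hpos.ne'
    have hcc : c ≠ 0 := hcpos.ne'
    by_cases hS : ∫ x, ‖u x‖ ^ 6 = 0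
    · rw [hS]; simp
    · field_simp

theorem ratio_mem (k : ℕ) : (∫ x, deriv (trial k) x ^ 2) * (∫ x, trial k x ^ 2) ^ 2 /
      (∫ x, trial k x ^ 6) ∈ setB := by
  have hcomp : ∀ x : ℝ, (fun y => ((trial k (eL.symm y) : ℝ) : ℂ)) (eL x) = ((trial k x : ℝ) : ℂ) := by
    intro x; simp
  have hcd : ContDiff ℝ 1 (fun y : EuclideanSpace ℝ (Fin 1) => ((trial k (eL.symm y) : ℝ) : ℂ)) :=
    Complex.ofRealCLM.contDiff.comp
      ((contDiff_trial k).comp eL.symm.toContinuousLinearEquiv.contDiff)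
  refine ⟨fun y => ((trial k (eL.symm y) : ℝ) : ℂ), hcd, ?_, ?_, ?_⟩
  · have h1 : HasCompactSupport (fun y : EuclideanSpace ℝ (Fin 1) => trial k (eL.symm y)) :=
      (hasCompactSupport_trial k).comp_homeomorph eL.symm.toHomeomorph
    exact h1.comp_left (g := fun t : ℝ => (t : ℂ)) Complex.ofReal_zero
  · intro h
    have := congrFun h (eL 0)
    simp only [LinearIsometryEquiv.symm_apply_apply, Pi.zero_apply, Complex.ofReal_eq_zero] at this
    have h2 : 0 < trial k 0 := by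
      unfold trial
      rw [chi_eq_one (by simp), one_mul]
      exact sq_pos 0
    rw [this] at h2
    exact lt_irrefl _ h2
  · simp only [rpow2, rpow6]
    have e1 : ∫ x, ∑ i : Fin 1, ‖fderiv ℝ (fun y : EuclideanSpace ℝ (Fin 1) =>
        ((trial k (eL.symm y) : ℝ) : ℂ)) x (EuclideanSpace.single i (1 : ℝ))‖ ^ 2
        = ∫ x, deriv (trial k) x ^ 2 := by
      rw [integral_eL]
      congr 1
      funext t
      rw [sum_fderiv_eq hcd t]
      simp only [hcomp]
      have hd : HasDerivAt (fun t => ((trial k t : ℝ) : ℂ)) ((deriv (trial k) t : ℝ) : ℂ) t :=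
        (((contDiff_trial k).differentiable one_ne_zero t).hasDerivAt).ofReal_comp
      rw [hd.deriv, Complex.norm_real, Real.norm_eq_abs, sq_abs]
    have e2 : ∫ x : EuclideanSpace ℝ (Fin 1), ‖((trial k (eL.symm x) : ℝ) : ℂ)‖ ^ 2
        = ∫ x, trial k x ^ 2 := by
      rw [integral_eL]
      congr 1
      funext t
      rw [Complex.norm_real, Real.norm_eq_abs, sq_abs, LinearIsometryEquiv.symm_apply_apply]
    have e3 : ∫ x : EuclideanSpace ℝ (Fin 1), ‖((trial k (eL.symm x) : ℝ) : ℂ)‖ ^ 6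
        = ∫ x, trial k x ^ 6 := by
      rw [integral_eL]
      congr 1
      funext t
      rw [Complex.norm_real, Real.norm_eq_abs, LinearIsometryEquiv.symm_apply_apply]
      have : |trial k t| ^ 6 = (|trial k t| ^ 2) ^ 3 := by ring
      rw [this, sq_abs]
      ring
    rw [e1, e2, e3]

theorem sInf_of_subset {S : Set ℝ} (h1 : setB ⊆ S) (h2 : S ⊆ setA) : sInf S = π ^ 2 / 4 := by
  have hbdd : BddBelow S := ⟨π ^ 2 / 4, fun K hK => setA_ge (h2 hK)⟩
  apply le_antisymm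
  · apply ge_of_tendsto tendsto_ratio
    exact Eventually.of_forall fun k => csInf_le hbdd (h1 (ratio_mem k))
  · apply le_csInf ⟨_, h1 (ratio_mem 0)⟩
    intro K hK
    exact setA_ge (h2 hK)

theorem volume_ball_one :
    (volume (Metric.ball (0 : EuclideanSpace ℝ (Fin 1)) 1)).toReal = 2 := by
  have h := eL.measurePreserving.measure_preimage
    (measurableSet_ball (x := (0 : EuclideanSpace ℝ (Fin 1))) (ε := 1)).nullMeasurableSet
  have h2 : (eL : ℝ → EuclideanSpace ℝ (Fin 1)) ⁻¹' Metric.ball 0 1 = Metric.ball 0 1 := by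
    ext t
    simp
  rw [h2, Real.volume_ball] at h
  rw [← h]
  norm_num

theorem classical_one : ((1 : ℕ) : ℝ) / (((1 : ℕ) : ℝ) + 2) * (2 * Real.pi) ^ 2
            / ((volume (Metric.ball (0 : EuclideanSpace ℝ (Fin 1)) 1)).toReal)
                ^ (2 / ((1 : ℕ) : ℝ)) = π ^ 2 / 3 := by
  rw [volume_ball_one, rpow2]
  norm_num
  ring

end Pool.Agent.LiebT
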